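import Pool.Agent.H61.SS.Count

/-! Signed sumsets and the function `nu`. -/

namespace Pool.Agent.H61.SS

open Finset

/-- The `h`-fold signed sumset of `A ⊆ ZMod n`. -/
def signedSumset {n : ℕ} (A : Finset (ZMod n)) (h : ℕ) : Set (ZMod n) :=
  {g | ∃ l : ZMod n → ℤ, ∑ a ∈ A, |l a| = (h : ℤ) ∧ ∑ a ∈ A, l a • a = g}

/-- The largest size of the `h`-fold signed sumset of an `m`-element subset of `ZMod n`. -/
noncomputable def nu (n m h : ℕ) : ℕ :=
  sSup {k | ∃ A : Finset (ZMod n), A.card = m ∧ (signedSumset A h).ncard = k}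

/-- The value of a coefficient vector. -/
def val {n m : ℕ} (a : Fin m → ZMod n) (l : Fin m → ℤ) : ZMod n := ∑ i, l i • a i

lemma val_sub {n m : ℕ} (a : Fin m → ZMod n) (l l' : Fin m → ℤ) :
    val a (l - l') = val a l - val a l' := by
  unfold val
  rw [← Finset.sum_sub_distrib]
  refine Finset.sum_congr rfl fun i _ => ?_
  rw [Pi.sub_apply, sub_smul]

lemma val_neg {n m : ℕ} (a : Fin m → ZMod n) (l : Fin m → ℤ) :
    val a (-l) = - val a l := by
  unfold val
  rw [← Finset.sum_neg_distrib]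
  refine Finset.sum_congr rfl fun i _ => ?_
  rw [Pi.neg_apply, neg_smul]

lemma sumset_image {n m : ℕ} (a : Fin m → ZMod n) (ha : Function.Injective a) (h : ℕ) :
    signedSumset (Finset.univ.map ⟨a, ha⟩) h = ↑((sh m h).image (val a)) := by
  classical
  ext g
  rw [Finset.coe_image]
  constructor
  · rintro ⟨l, hl, rfl⟩
    rw [Finset.sum_map] at hl
    refine ⟨fun i => l (a i), ?_, ?_⟩
    · rw [Finset.mem_coe, mem_sh]
      exact hl
    · rw [Finset.sum_map]
      rfl
  · rintro ⟨l, hl, rfl⟩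
    rw [Finset.mem_coe, mem_sh] at hl
    have e : ∀ i, (Function.extend a l 0) (a i) = l i := fun i => ha.extend_apply _ _ _
    refine ⟨Function.extend a l 0, ?_, ?_⟩
    · rw [Finset.sum_map, ← hl]
      refine Finset.sum_congr rfl fun i _ => ?_
      show |Function.extend a l 0 (a i)| = _
      rw [e]
    · rw [Finset.sum_map]
      refine Finset.sum_congr rfl fun i _ => ?_
      show Function.extend a l 0 (a i) • a i = _
      rw [e]

lemma exists_enum {n m : ℕ} (A : Finset (ZMod n)) (hA : A.card = m) :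
    ∃ (a : Fin m → ZMod n) (ha : Function.Injective a), A = Finset.univ.map ⟨a, ha⟩ := by
  let e := A.equivFinOfCardEq hA
  refine ⟨fun i => (e.symm i : ZMod n), fun i j hij => e.symm.injective (Subtype.ext hij), ?_⟩
  ext x
  rw [Finset.mem_map]
  constructor
  · intro hx
    exact ⟨e ⟨x, hx⟩, Finset.mem_univ _, by simp⟩
  · rintro ⟨i, _, rfl⟩
    exact (e.symm i).2

lemma nu_lt_iff {n m h T : ℕ} (hn : 0 < n) (hm : m ≤ n) :
    nu n m h < T ↔ ∀ a : Fin m → ZMod n, Function.Injective a →
      ((sh m h).image (val a)).card < T := by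
  classical
  have : NeZero n := ⟨hn.ne'⟩
  set S : Set ℕ := {k | ∃ A : Finset (ZMod n), A.card = m ∧ (signedSumset A h).ncard = k} with hS
  have hbdd : BddAbove S := by
    refine ⟨n, ?_⟩
    rintro k ⟨A, _, rfl⟩
    have := Set.ncard_le_card (signedSumset A h)
    rwa [Nat.card_eq_fintype_card, ZMod.card] at this
  have hne : S.Nonempty := by
    obtain ⟨A, _, hA⟩ := Finset.exists_subset_card_eq
      (s := (Finset.univ : Finset (ZMod n))) (n := m) (by rw [Finset.card_univ, ZMod.card]; exact hm)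
    exact ⟨_, A, hA, rfl⟩
  constructor
  · intro hlt a ha
    refine lt_of_le_of_lt (le_csSup hbdd ?_) hlt
    refine ⟨Finset.univ.map ⟨a, ha⟩, by simp, ?_⟩
    rw [sumset_image, Set.ncard_coe_finset]
  · intro hall
    obtain ⟨A, hA, hk⟩ := Nat.sSup_mem hne hbdd
    obtain ⟨a, ha, rfl⟩ := exists_enum A hA
    unfold nu
    rw [← hS, ← hk, sumset_image, Set.ncard_coe_finset]
    exact hall a ha

end Pool.Agent.H61.SS
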