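import Mathlib

/-! Counting integer vectors by their `ℓ₁` norm. -/

namespace Pool.Agent.H61.SS

open Finset

/-- The integer vectors of length `m` with `ℓ₁` norm `h`. -/
noncomputable def sh (m h : ℕ) : Finset (Fin m → ℤ) :=
  (Fintype.piFinset fun _ => Finset.Icc (-(h : ℤ)) h).filter fun l => ∑ i, |l i| = (h : ℤ)

lemma mem_sh {m h : ℕ} {l : Fin m → ℤ} : l ∈ sh m h ↔ ∑ i, |l i| = (h : ℤ) := by
  unfold sh
  rw [Finset.mem_filter, Fintype.mem_piFinset]
  constructor
  · exact fun h => h.2
  · intro hl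
    refine ⟨fun i => ?_, hl⟩
    have : |l i| ≤ ∑ i, |l i| :=
      Finset.single_le_sum (f := fun i => |l i|) (fun _ _ => abs_nonneg _) (Finset.mem_univ i)
    rw [hl] at this
    rw [Finset.mem_Icc]
    exact abs_le.mp this

lemma card_zero (m : ℕ) : (sh m 0).card = 1 := by
  rw [Finset.card_eq_one]
  refine ⟨0, ?_⟩
  ext l
  rw [mem_sh, Finset.mem_singleton]
  constructor
  · intro hl
    funext i
    have h1 : ∀ i ∈ Finset.univ, |l i| = 0 := by
      rw [← Finset.sum_eq_zero_iff_of_nonneg (fun _ _ => abs_nonneg _)]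
      exact_mod_cast hl
    exact abs_eq_zero.mp (h1 i (Finset.mem_univ i))
  · rintro rfl
    simp

lemma card_empty (h : ℕ) : (sh 0 (h + 1)).card = 0 := by
  rw [Finset.card_eq_zero]
  ext l
  rw [mem_sh]
  simp only [Finset.univ_eq_empty, Finset.sum_empty, Finset.notMem_empty, iff_false]
  push_cast
  omega

lemma card_mid (m h : ℕ) : ((sh (m + 1) h).filter fun l => l 0 = 0).card = (sh m h).card := by
  refine Finset.card_bij' (fun l _ => fun i => l i.succ) (fun l _ => Fin.cons 0 l) ?_ ?_ ?_ ?_
  · intro l hl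
    rw [Finset.mem_filter, mem_sh, Fin.sum_univ_succ] at hl
    rw [mem_sh]
    rw [hl.2] at hl
    simpa using hl.1
  · intro l hl
    rw [mem_sh] at hl
    rw [Finset.mem_filter, mem_sh, Fin.sum_univ_succ]
    simp [hl]
  · intro l hl
    rw [Finset.mem_filter] at hl
    funext i
    refine Fin.cases ?_ (fun i => ?_) i
    · simp [hl.2]
    · simp
  · intro l hl
    funext i
    simp

lemma sum_update {m : ℕ} (l : Fin (m + 1) → ℤ) (x : ℤ) :
    ∑ i, |Function.update l 0 x i| = |x| + (∑ i, |l i| - |l 0|) := by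
  rw [Fin.sum_univ_succ, Fin.sum_univ_succ]
  simp only [Function.update_self, ne_eq, Fin.succ_ne_zero, not_false_eq_true,
    Function.update_of_ne]
  ring

lemma card_pos (m h : ℕ) : ((sh (m + 1) (h + 1)).filter fun l => 0 < l 0).card
    = ((sh (m + 1) h).filter fun l => 0 ≤ l 0).card := by
  refine Finset.card_bij' (fun l _ => Function.update l 0 (l 0 - 1))
    (fun l _ => Function.update l 0 (l 0 + 1)) ?_ ?_ ?_ ?_
  · intro l hl
    rw [Finset.mem_filter, mem_sh] at hl ⊢
    rw [sum_update, hl.1, Function.update_self]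
    have h1 : |l 0| = l 0 := abs_of_pos hl.2
    have h2 : |l 0 - 1| = l 0 - 1 := abs_of_nonneg (by omega)
    rw [h1, h2]
    push_cast
    constructor <;> omega
  · intro l hl
    rw [Finset.mem_filter, mem_sh] at hl ⊢
    rw [sum_update, hl.1, Function.update_self]
    have h1 : |l 0| = l 0 := abs_of_nonneg hl.2
    have h2 : |l 0 + 1| = l 0 + 1 := abs_of_nonneg (by omega)
    rw [h1, h2]
    push_cast
    constructor <;> omega
  · intro l hl
    simp
  · intro l hl
    simp

lemma card_neg (m h : ℕ) : ((sh (m + 1) (h + 1)).filter fun l => l 0 < 0).card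
    = ((sh (m + 1) h).filter fun l => l 0 ≤ 0).card := by
  refine Finset.card_bij' (fun l _ => Function.update l 0 (l 0 + 1))
    (fun l _ => Function.update l 0 (l 0 - 1)) ?_ ?_ ?_ ?_
  · intro l hl
    rw [Finset.mem_filter, mem_sh] at hl ⊢
    rw [sum_update, hl.1, Function.update_self]
    have h1 : |l 0| = -l 0 := abs_of_neg hl.2
    have h2 : |l 0 + 1| = -(l 0 + 1) := abs_of_nonpos (by omega)
    rw [h1, h2]
    push_cast
    constructor <;> omega
  · intro l hl
    rw [Finset.mem_filter, mem_sh] at hl ⊢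
    rw [sum_update, hl.1, Function.update_self]
    have h1 : |l 0| = -l 0 := abs_of_nonpos hl.2
    have h2 : |l 0 - 1| = -(l 0 - 1) := abs_of_nonpos (by omega)
    rw [h1, h2]
    push_cast
    constructor <;> omega
  · intro l hl
    simp
  · intro l hl
    simp

lemma card_succ (m h : ℕ) :
    (sh (m + 1) (h + 1)).card = (sh m (h + 1)).card + (sh (m + 1) h).card + (sh m h).card := by
  have e1 : (sh (m + 1) (h + 1)).card
      = ((sh (m + 1) (h + 1)).filter fun l => 0 < l 0).card
        + (((sh (m + 1) (h + 1)).filter fun l => l 0 = 0).card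
        + ((sh (m + 1) (h + 1)).filter fun l => l 0 < 0).card) := by
    rw [← Finset.card_union_of_disjoint, ← Finset.card_union_of_disjoint]
    · congr 1
      ext l
      simp only [Finset.mem_union, Finset.mem_filter]
      constructor
      · intro hl
        rcases lt_trichotomy (l 0) 0 with h1 | h1 | h1
        · exact Or.inr (Or.inr ⟨hl, h1⟩)
        · exact Or.inr (Or.inl ⟨hl, h1⟩)
        · exact Or.inl ⟨hl, h1⟩
      · rintro (h1 | h1 | h1) <;> exact h1.1
    · rw [Finset.disjoint_left]
      intro l h1 h2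
      rw [Finset.mem_union, Finset.mem_filter, Finset.mem_filter] at h2
      rw [Finset.mem_filter] at h1
      rcases h2 with h2 | h2 <;> omega
    · rw [Finset.disjoint_left]
      intro l h1 h2
      rw [Finset.mem_filter] at h1 h2
      omega
  have e2 : ((sh (m + 1) h).filter fun l => 0 ≤ l 0).card
      + ((sh (m + 1) h).filter fun l => l 0 ≤ 0).card
      = (sh (m + 1) h).card + ((sh (m + 1) h).filter fun l => l 0 = 0).card := by
    rw [← Finset.card_union_add_card_inter]
    congr 2
    · ext l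
      simp only [Finset.mem_union, Finset.mem_filter]
      constructor
      · rintro (h1 | h1) <;> exact h1.1
      · intro hl
        rcases le_total 0 (l 0) with h1 | h1
        · exact Or.inl ⟨hl, h1⟩
        · exact Or.inr ⟨hl, h1⟩
    · ext l
      simp only [Finset.mem_inter, Finset.mem_filter]
      constructor
      · rintro ⟨h1, h2⟩
        exact ⟨h1.1, le_antisymm h2.2 h1.2⟩
      · rintro ⟨h1, h2⟩
        exact ⟨⟨h1, h2.ge⟩, ⟨h1, h2.le⟩⟩
  rw [e1, card_pos, card_neg, card_mid]
  rw [card_mid] at e2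
  omega

/-- The number of compositions of `h` into `i` positive parts. -/
def comp : ℕ → ℕ → ℕ
  | 0, 0 => 1
  | 0, _ + 1 => 0
  | _ + 1, 0 => 0
  | h + 1, i + 1 => h.choose i

lemma comp_succ (h i : ℕ) : comp (h + 1) (i + 1) = comp h (i + 1) + comp h i := by
  rcases h with _ | h
  · rcases i with _ | i
    · simp [comp]
    · simp [comp]
  · rcases i with _ | i
    · simp [comp]
    · simp only [comp]
      rw [Nat.choose_succ_succ]
      ring

/-- The formula for the number of vectors. -/
def G (m h : ℕ) : ℕ := ∑ i ∈ Finset.range (m + 1), 2 ^ i * m.choose i * comp h i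

lemma G_ext (m h k : ℕ) (hk : m + 1 ≤ k) :
    G m h = ∑ i ∈ Finset.range k, 2 ^ i * m.choose i * comp h i := by
  unfold G
  refine Finset.sum_subset (Finset.range_subset_range.mpr hk) ?_
  intro i _ hi
  rw [Finset.mem_range, not_lt] at hi
  rw [Nat.choose_eq_zero_of_lt (by omega)]
  simp

lemma G_succ (m h : ℕ) : G (m + 1) (h + 1) = G m (h + 1) + G (m + 1) h + G m h := by
  rw [G_ext m (h + 1) (m + 2) (by omega), G_ext m h (m + 2) (by omega)]
  unfold G
  rw [Finset.sum_range_succ' _ (m + 1), Finset.sum_range_succ' (fun i => 2 ^ i * m.choose i * comp (h + 1) i) (m + 1),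
    Finset.sum_range_succ' (fun i => 2 ^ i * (m + 1).choose i * comp h i) (m + 1)]
  have e3 : ∑ i ∈ Finset.range (m + 2), 2 ^ i * m.choose i * comp h i
      = ∑ i ∈ Finset.range (m + 1), 2 ^ i * m.choose i * comp h i := by
    rw [Finset.sum_range_succ, Nat.choose_eq_zero_of_lt (by omega : m < m + 1)]
    simp
  have e4 : ∑ i ∈ Finset.range (m + 2), 2 ^ i * m.choose i * comp h i
      = ∑ i ∈ Finset.range (m + 1), 2 ^ (i + 1) * m.choose (i + 1) * comp h (i + 1)
        + 2 ^ 0 * m.choose 0 * comp h 0 := Finset.sum_range_succ' _ _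
  have key : ∑ i ∈ Finset.range (m + 1), 2 ^ (i + 1) * (m + 1).choose (i + 1) * comp (h + 1) (i + 1)
      = ∑ i ∈ Finset.range (m + 1), 2 ^ (i + 1) * m.choose (i + 1) * comp (h + 1) (i + 1)
      + ∑ i ∈ Finset.range (m + 1), 2 ^ (i + 1) * (m + 1).choose (i + 1) * comp h (i + 1)
      + ∑ i ∈ Finset.range (m + 2), 2 ^ i * m.choose i * comp h i
      + (2 ^ 0 * m.choose 0 * comp h 0) := by
    have a1 : ∀ i, 2 ^ (i + 1) * (m + 1).choose (i + 1) * comp (h + 1) (i + 1)
        = 2 ^ (i + 1) * m.choose (i + 1) * comp (h + 1) (i + 1)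
          + (2 ^ (i + 1) * m.choose i * comp h (i + 1) + 2 * (2 ^ i * m.choose i * comp h i)) := by
      intro i
      rw [Nat.choose_succ_succ, comp_succ]
      ring
    have a2 : ∀ i, 2 ^ (i + 1) * (m + 1).choose (i + 1) * comp h (i + 1)
        = 2 ^ (i + 1) * m.choose i * comp h (i + 1)
          + 2 ^ (i + 1) * m.choose (i + 1) * comp h (i + 1) := by
      intro i
      rw [Nat.choose_succ_succ]
      ring
    rw [Finset.sum_congr rfl (fun i _ => a1 i), Finset.sum_congr rfl (fun i _ => a2 i)]
    rw [Finset.sum_add_distrib, Finset.sum_add_distrib, Finset.sum_add_distrib, ← Finset.mul_sum]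
    rw [← e3]
    rw [e4]
    ring
  have z1 : comp (h + 1) 0 = 0 := rfl
  rw [z1]
  simp only [Nat.choose_zero_right] at key ⊢
  omega

lemma G_zero (m : ℕ) : G m 0 = 1 := by
  unfold G
  rw [Finset.sum_range_succ']
  simp [comp]

lemma G_empty (h : ℕ) : G 0 (h + 1) = 0 := by
  simp [G, comp]

theorem card_sh (m h : ℕ) : (sh m h).card = G m h := by
  induction m generalizing h with
  | zero =>
    rcases h with _ | h
    · rw [card_zero, G_zero]
    · rw [card_empty, G_empty]
  | succ m ih =>
    induction h with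
    | zero => rw [card_zero, G_zero]
    | succ h ih2 => rw [card_succ, G_succ, ih, ih2, ih]

/-- The number `c(h,m)` of the problem file. -/
def c (h m : ℕ) : ℕ :=
  ∑ i ∈ Finset.Icc 1 (min m h), 2 ^ i * m.choose i * (h - 1).choose (i - 1)

theorem card_sh_eq_c (m h : ℕ) (hh : 1 ≤ h) : (sh m h).card = c h m := by
  rw [card_sh]
  obtain ⟨k, rfl⟩ : ∃ k, h = k + 1 := ⟨h - 1, by omega⟩
  unfold G c
  rw [Finset.sum_range_succ']
  have z1 : comp (k + 1) 0 = 0 := rfl
  rw [z1, mul_zero, add_zero]
  have e1 : ∑ i ∈ Finset.Icc 1 (min m (k + 1)), 2 ^ i * m.choose i * (k + 1 - 1).choose (i - 1)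
      = ∑ i ∈ Finset.Icc 1 m, 2 ^ i * m.choose i * (k + 1 - 1).choose (i - 1) := by
    refine Finset.sum_subset (Finset.Icc_subset_Icc_right (min_le_left _ _)) ?_
    intro i hi hi2
    rw [Finset.mem_Icc] at hi hi2
    rw [Nat.choose_eq_zero_of_lt (n := k + 1 - 1) (by omega)]
    simp
  rw [e1]
  refine Finset.sum_bij' (fun i _ => i + 1) (fun i _ => i - 1) ?_ ?_ ?_ ?_ ?_
  · intro i hi
    rw [Finset.mem_range] at hi
    rw [Finset.mem_Icc]
    omega
  · intro i hi
    rw [Finset.mem_Icc] at hi
    rw [Finset.mem_range]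
    omega
  · intro i _
    simp
  · intro i hi
    rw [Finset.mem_Icc] at hi
    show i - 1 + 1 = i
    omega
  · intro i _
    rfl

/-- The number of integer vectors of length `m` with `ℓ₁` norm at most `h`. -/
def b (h m : ℕ) : ℕ := ∑ i ∈ Finset.range (m + 1), 2 ^ i * m.choose i * h.choose i

lemma sum_comp (h i : ℕ) : ∑ k ∈ Finset.range (h + 1), comp k i = h.choose i := by
  induction h with
  | zero =>
    rcases i with _ | i
    · simp [comp]
    · simp [comp]
  | succ h ih =>
    rw [Finset.sum_range_succ, ih]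
    rcases i with _ | i
    · simp [comp]
    · simp only [comp]
      rw [Nat.choose_succ_succ]
      ring

lemma sum_G (m h : ℕ) : ∑ k ∈ Finset.range (h + 1), G m k = b h m := by
  unfold G b
  rw [Finset.sum_comm]
  refine Finset.sum_congr rfl fun i _ => ?_
  rw [← Finset.mul_sum, sum_comp]

/-- The integer vectors of length `m` with `ℓ₁` norm at most `h`. -/
noncomputable def bl (m h : ℕ) : Finset (Fin m → ℤ) :=
  (Finset.range (h + 1)).biUnion fun k => sh m k

lemma mem_bl {m h : ℕ} {l : Fin m → ℤ} : l ∈ bl m h ↔ ∑ i, |l i| ≤ (h : ℤ) := by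
  unfold bl
  rw [Finset.mem_biUnion]
  constructor
  · rintro ⟨k, hk, hl⟩
    rw [mem_sh] at hl
    rw [Finset.mem_range] at hk
    rw [hl]
    exact_mod_cast Nat.lt_succ_iff.mp hk
  · intro hl
    have h0 : 0 ≤ ∑ i, |l i| := Finset.sum_nonneg fun _ _ => abs_nonneg _
    refine ⟨(∑ i, |l i|).toNat, ?_, ?_⟩
    · rw [Finset.mem_range]
      omega
    · rw [mem_sh]
      omega

lemma card_bl (m h : ℕ) : (bl m h).card = b h m := by
  unfold bl
  rw [Finset.card_biUnion]
  · rw [Finset.sum_congr rfl fun k _ => card_sh m k, sum_G]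
  · intro k _ k' _ hkk
    show Disjoint (sh m k) (sh m k')
    rw [Finset.disjoint_left]
    intro l h1 h2
    rw [mem_sh] at h1 h2
    rw [h1] at h2
    exact hkk (by exact_mod_cast h2)

end Pool.Agent.H61.SS
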