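import Pool.Agent.H61.SS.Inj

/-! The covering side: `n` slightly below `c h m` for even `h`. -/

namespace Pool.Agent.H61.SS

open Finset Function

/-- The vectors `μ` of norm `h` with `μ - l` again of norm `h`. -/
noncomputable def sE (m h : ℕ) (l : Fin m → ℤ) : Finset (Fin m → ℤ) :=
  (sh m h).filter fun μ => ∑ i, |μ i - l i| = (h : ℤ)

lemma descent {n m h : ℕ} (hn : 0 < n) (hh : 1 ≤ h) (a : Fin m → ZMod n) (l : Fin m → ℤ)
    (hl : l ∈ sh m h) (h0 : val a l = 0) (hcov : ∀ z, ∃ μ ∈ sh m h, val a μ = z) :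
    n + (sE m h l).card + 1 ≤ (sh m h).card := by
  classical
  have : NeZero n := ⟨hn.ne'⟩
  set R := (sh m h) \ (insert l (sE m h l)) with hR
  have hl' := mem_sh.mp hl
  have hneg : -l ∈ sh m h := by
    rw [mem_sh]
    simpa using hl'
  have hlpos : 0 < ∑ i, l i * l i := by
    obtain ⟨i, hi⟩ : ∃ i, l i ≠ 0 := by
      by_contra hcon
      push Not at hcon
      rw [Finset.sum_congr rfl fun i _ => by rw [hcon i, abs_zero]] at hl'
      simp at hl'
      omega
    refine Finset.sum_pos' (fun i _ => mul_self_nonneg _) ⟨i, Finset.mem_univ i, ?_⟩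
    exact mul_self_pos.mpr hi
  have hsurj : ∀ z : ZMod n, ∃ μ ∈ R, val a μ = z := by
    intro z
    obtain ⟨μ0, hμ0, hμz⟩ := hcov z
    obtain ⟨μ, hμ, hmin⟩ := Finset.exists_min_image ((sh m h).filter fun μ => val a μ = z)
      (fun μ => ∑ i, μ i * l i) ⟨μ0, Finset.mem_filter.mpr ⟨hμ0, hμz⟩⟩
    rw [Finset.mem_filter] at hμ
    refine ⟨μ, ?_, hμ.2⟩
    rw [hR, Finset.mem_sdiff, Finset.mem_insert]
    refine ⟨hμ.1, ?_⟩
    rintro (hc | hc)
    · have h1 := hmin (-l) (Finset.mem_filter.mpr ⟨hneg, by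
        rw [val_neg, h0, neg_zero, ← hμ.2, hc, h0]⟩)
      rw [hc] at h1
      simp only [Pi.neg_apply, neg_mul, Finset.sum_neg_distrib] at h1
      omega
    · have h2 := (Finset.mem_filter.mp hc).2
      have h1 := hmin (μ - l) (Finset.mem_filter.mpr ⟨mem_sh.mpr h2, by
        rw [val_sub, h0, sub_zero, hμ.2]⟩)
      simp only [Pi.sub_apply, sub_mul, Finset.sum_sub_distrib] at h1
      omega
  have hcard : n ≤ R.card := by
    have h1 : (Finset.univ : Finset (ZMod n)) ⊆ R.image (val a) := by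
      intro z _
      rw [Finset.mem_image]
      exact hsurj z
    have h2 := (Finset.card_le_card h1).trans Finset.card_image_le
    rwa [Finset.card_univ, ZMod.card] at h2
  have hnot : l ∉ sE m h l := by
    intro hc
    have := (Finset.mem_filter.mp hc).2
    simp at this
    omega
  have hsub : insert l (sE m h l) ⊆ sh m h := by
    intro μ hμ
    rw [Finset.mem_insert] at hμ
    rcases hμ with rfl | hμ
    · exact hl
    · exact (Finset.mem_filter.mp hμ).1
  have h3 := Finset.card_sdiff_add_card_eq_card hsub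
  rw [Finset.card_insert_of_notMem hnot, ← hR] at h3
  omega

lemma exists_mu {m t g : ℕ} (l : Fin m → ℤ) (hl : ∑ i, |l i| = 2 * (t : ℤ)) (i : Fin m)
    (hi : |l i| ≤ t) (bb : Bool) : ∃ μ : Fin m → ℤ, ∑ j, |μ j| = (t : ℤ) + g ∧
      ∑ j, |μ j - l j| = (t : ℤ) + g ∧ (∀ j, j ≠ i → |μ j| + |l j - μ j| = |l j|) ∧
      μ i = if bb then l i + (if 0 ≤ l i then (g : ℤ) else -g)
        else - (if 0 ≤ l i then (g : ℤ) else -g) := by
  have h0 : 0 ≤ |l i| := abs_nonneg _
  have hl' : ∑ j, |update l i 0 j| = 2 * (t : ℤ) - |l i| := by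
    rw [sum_abs_update, hl]
    simp
  have key : ∀ (r : ℕ) (x : ℤ), (r : ℤ) ≤ 2 * (t : ℤ) - |l i| → |x| + r = t + g →
      |x - l i| + (2 * t - |l i| - r) = t + g → ∃ μ : Fin m → ℤ, ∑ j, |μ j| = (t : ℤ) + g ∧
      ∑ j, |μ j - l j| = (t : ℤ) + g ∧ (∀ j, j ≠ i → |μ j| + |l j - μ j| = |l j|) ∧ μ i = x := by
    intro r x hr hx1 hx2
    obtain ⟨p, hp, hpc⟩ := exists_sub (update l i 0) r (by rw [hl']; exact hr)
    have hp0 : p i = 0 := by
      have h1 := hpc i
      rw [update_self] at h1
      rcases abs_cases (p i) with ⟨e1, e2⟩ | ⟨e1, e2⟩ <;>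
      rcases abs_cases (0 - p i) with ⟨e3, e4⟩ | ⟨e3, e4⟩ <;> simp at h1 <;> omega
    refine ⟨update p i x, ?_, ?_, ?_, update_self _ _ _⟩
    · rw [sum_abs_update, hp, hp0, abs_zero, sub_zero]
      exact hx1
    · have e1 : ∀ j, |update p i x j - l j| = |update (fun j => p j - update l i 0 j) i (x - l i) j| := by
        intro j
        by_cases hj : j = i
        · subst hj
          simp
        · simp [update_of_ne hj]
      rw [Finset.sum_congr rfl fun j _ => e1 j, sum_abs_update]
      have e2 : ∑ j, |p j - update l i 0 j| = 2 * (t : ℤ) - |l i| - r := by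
        rw [← hl', ← hp, ← Finset.sum_sub_distrib]
        refine Finset.sum_congr rfl fun j _ => ?_
        rw [← hpc j, abs_sub_comm]
        ring
      rw [e2, hp0, update_self]
      simp
      omega
    · intro j hj
      have h1 := hpc j
      rw [update_of_ne hj] at h1
      rwa [update_of_ne hj]
  obtain ⟨r, hr⟩ : ∃ r : ℕ, (r : ℤ) = t - |l i| := ⟨(t - |l i|).toNat, by
    rw [Int.toNat_of_nonneg (by omega)]⟩
  by_cases hs : 0 ≤ l i
  · have e0 : |l i| = l i := abs_of_nonneg hs
    rw [e0] at hr key hi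
    rw [if_pos hs]
    rcases bb with _ | _
    · simp only [Bool.false_eq_true, if_false]
      have e1 : |(-(g : ℤ))| = g := by rw [abs_neg, abs_of_nonneg (by omega)]
      have e2 : |(-(g : ℤ)) - l i| = g + l i := by
        rw [abs_of_nonpos (by omega)]
        ring
      exact key t _ (by omega) (by rw [e1]; ring) (by rw [e2]; ring)
    · simp only [if_true]
      have e1 : |l i + (g : ℤ)| = l i + g := abs_of_nonneg (by omega)
      have e2 : |l i + (g : ℤ) - l i| = g := by
        rw [add_sub_cancel_left, abs_of_nonneg (by omega)]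
      exact key r _ (by omega) (by rw [e1, hr]; ring) (by rw [e2, hr]; ring)
  · have e0 : |l i| = -l i := abs_of_nonpos (by omega)
    rw [e0] at hr key hi
    rw [if_neg hs]
    rcases bb with _ | _
    · simp only [Bool.false_eq_true, if_false, neg_neg]
      have e1 : |(g : ℤ)| = g := by rw [abs_of_nonneg (by omega)]
      have e2 : |(g : ℤ) - l i| = g - l i := abs_of_nonneg (by omega)
      exact key t _ (by omega) (by rw [e1]; ring) (by rw [e2]; ring)
    · simp only [if_true]
      have e1 : |l i + -(g : ℤ)| = -l i + g := by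
        rw [abs_of_nonpos (by omega)]
        ring
      have e2 : |l i + -(g : ℤ) - l i| = g := by
        rw [add_sub_cancel_left, abs_neg, abs_of_nonneg (by omega)]
      exact key r _ (by omega) (by rw [e1, hr]; ring) (by rw [e2, hr]; ring)

lemma card_sE {m t g : ℕ} (hm : 1 ≤ m) (hg : 1 ≤ g) (l : Fin m → ℤ)
    (hl : ∑ i, |l i| = 2 * (t : ℤ)) : 2 * (m - 1) ≤ (sE m (t + g) l).card := by
  classical
  obtain ⟨j, hj⟩ : ∃ j : Fin m, ∀ i, i ≠ j → |l i| ≤ t := by
    by_cases hc : ∃ j, (t : ℤ) < |l j|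
    · obtain ⟨j, hj⟩ := hc
      refine ⟨j, fun i hi => ?_⟩
      have h1 : |l i| + |l j| ≤ ∑ i, |l i| := by
        have := Finset.sum_le_univ_sum_of_nonneg (s := {i, j}) (f := fun i => |l i|)
          (fun _ => abs_nonneg _)
        rwa [Finset.sum_pair hi] at this
      omega
    · push Not at hc
      exact ⟨⟨0, by omega⟩, fun i _ => hc i⟩
  choose F hF1 hF2 hF3 hF4 using fun (p : {i // i ≠ j} × Bool) =>
    exists_mu (g := g) l hl p.1.1 (hj p.1.1 p.1.2) p.2
  have hinj : Function.Injective F := by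
    rintro ⟨⟨i, hi⟩, b1⟩ ⟨⟨i', hi'⟩, b2⟩ hpq
    have h1 : F ⟨⟨i, hi⟩, b1⟩ i = if b1 then l i + (if 0 ≤ l i then (g : ℤ) else -g)
        else - (if 0 ≤ l i then (g : ℤ) else -g) := hF4 ⟨⟨i, hi⟩, b1⟩
    have h2 : F ⟨⟨i', hi'⟩, b2⟩ i' = if b2 then l i' + (if 0 ≤ l i' then (g : ℤ) else -g)
        else - (if 0 ≤ l i' then (g : ℤ) else -g) := hF4 ⟨⟨i', hi'⟩, b2⟩
    have h3 := hj i hi
    by_cases hii : i = i'
    · subst hii
      rw [hpq, h2] at h1
      have : b1 = b2 := by
        rcases abs_cases (l i) with ⟨e1, e2⟩ | ⟨e1, e2⟩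
        · rw [if_pos e2] at h1
          rcases b1 with _ | _ <;> rcases b2 with _ | _ <;>
            simp only [Bool.false_eq_true, if_true, if_false] at h1 ⊢ <;> omega
        · have e3 : ¬ 0 ≤ l i := not_le.mpr e2
          rw [if_neg e3] at h1
          rcases b1 with _ | _ <;> rcases b2 with _ | _ <;>
            simp only [Bool.false_eq_true, if_true, if_false] at h1 ⊢ <;> omega
      rw [this]
    · exfalso
      have h4 := hF3 ⟨⟨i', hi'⟩, b2⟩ i hii
      rw [← hpq, h1] at h4
      rcases abs_cases (l i) with ⟨e1, e2⟩ | ⟨e1, e2⟩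
      · rw [if_pos e2] at h4
        rcases b1 with _ | _
        · simp only [Bool.false_eq_true, if_false] at h4
          rw [abs_neg, abs_of_nonneg (by omega : (0 : ℤ) ≤ g), abs_of_nonneg (by omega), e1] at h4
          omega
        · simp only [if_true] at h4
          rw [abs_of_nonneg (by omega : (0 : ℤ) ≤ l i + g), abs_of_nonpos (by omega), e1] at h4
          omega
      · have e3 : ¬ 0 ≤ l i := not_le.mpr e2
        rw [if_neg e3] at h4
        rcases b1 with _ | _
        · simp only [Bool.false_eq_true, if_false, neg_neg] at h4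
          rw [abs_of_nonneg (by omega : (0 : ℤ) ≤ g), abs_of_nonpos (by omega), e1] at h4
          omega
        · simp only [if_true] at h4
          rw [abs_of_nonpos (by omega : l i + -g ≤ (0 : ℤ)), abs_of_nonneg (by omega), e1] at h4
          omega
  have hmem : ∀ p ∈ (Finset.univ : Finset ({i // i ≠ j} × Bool)), F p ∈ sE m (t + g) l := by
    intro p _
    unfold sE
    rw [Finset.mem_filter, mem_sh]
    push_cast
    exact ⟨hF1 p, hF2 p⟩
  have := Finset.card_le_card_of_injOn F hmem hinj.injOn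
  rw [Finset.card_univ, Fintype.card_prod, Fintype.card_bool, Fintype.card_subtype_compl,
    Fintype.card_subtype_eq, Fintype.card_fin] at this
  omega

/-- A weaker form of `descent` for an arbitrary nonzero kernel vector. -/
lemma descent' {n m h : ℕ} (hn : 0 < n) (a : Fin m → ZMod n) (l : Fin m → ℤ)
    (hl : l ≠ 0) (h0 : val a l = 0) (hcov : ∀ z, ∃ μ ∈ sh m h, val a μ = z) :
    n + (sE m h l).card ≤ (sh m h).card := by
  classical
  have : NeZero n := ⟨hn.ne'⟩
  set R := (sh m h) \ (sE m h l) with hR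
  have hlpos : 0 < ∑ i, l i * l i := by
    obtain ⟨i, hi⟩ : ∃ i, l i ≠ 0 := by
      by_contra hcon
      push Not at hcon
      exact hl (funext hcon)
    refine Finset.sum_pos' (fun i _ => mul_self_nonneg _) ⟨i, Finset.mem_univ i, ?_⟩
    exact mul_self_pos.mpr hi
  have hsurj : ∀ z : ZMod n, ∃ μ ∈ R, val a μ = z := by
    intro z
    obtain ⟨μ0, hμ0, hμz⟩ := hcov z
    obtain ⟨μ, hμ, hmin⟩ := Finset.exists_min_image ((sh m h).filter fun μ => val a μ = z)
      (fun μ => ∑ i, μ i * l i) ⟨μ0, Finset.mem_filter.mpr ⟨hμ0, hμz⟩⟩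
    rw [Finset.mem_filter] at hμ
    refine ⟨μ, ?_, hμ.2⟩
    rw [hR, Finset.mem_sdiff]
    refine ⟨hμ.1, fun hc => ?_⟩
    have h2 := (Finset.mem_filter.mp hc).2
    have h1 := hmin (μ - l) (Finset.mem_filter.mpr ⟨mem_sh.mpr h2, by
      rw [val_sub, h0, sub_zero, hμ.2]⟩)
    simp only [Pi.sub_apply, sub_mul, Finset.sum_sub_distrib] at h1
    omega
  have hcard : n ≤ R.card := by
    have h1 : (Finset.univ : Finset (ZMod n)) ⊆ R.image (val a) := by
      intro z _
      rw [Finset.mem_image]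
      exact hsurj z
    have h2 := (Finset.card_le_card h1).trans Finset.card_image_le
    rwa [Finset.card_univ, ZMod.card] at h2
  have hsub : sE m h l ⊆ sh m h := Finset.filter_subset _ _
  have h3 := Finset.card_sdiff_add_card_eq_card hsub
  rw [← hR] at h3
  omega

/-- The covering side. -/
theorem covering {n m h : ℕ} (hm : 2 ≤ m) (hh : 2 ≤ h) (hmn : m ≤ n)
    (h1 : n ≤ c h m) (h2 : c h m + h % 2 ≤ n + 2 * (m - 1)) :
    nu n m h < min n (c h m) := by
  classical
  have hn : 0 < n := by omega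
  have : NeZero n := ⟨hn.ne'⟩
  rw [min_eq_left h1, nu_lt_iff hn hmn]
  intro a _
  by_contra hcon
  push Not at hcon
  have huniv : (sh m h).image (val a) = Finset.univ := by
    rw [← Finset.card_eq_iff_eq_univ, ZMod.card]
    refine le_antisymm ?_ hcon
    have := Finset.card_le_univ ((sh m h).image (val a))
    rwa [ZMod.card] at this
  have hcov : ∀ z, ∃ μ ∈ sh m h, val a μ = z := by
    intro z
    have : z ∈ (sh m h).image (val a) := by
      rw [huniv]
      exact Finset.mem_univ z
    rwa [Finset.mem_image] at this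
  rcases Nat.even_or_odd' h with ⟨k, hk | hk⟩
  · obtain ⟨l, hl, hl0⟩ := hcov 0
    have h3 := descent hn (by omega) a l hl hl0 hcov
    subst hk
    have h4 := card_sE (t := k) (g := k) (by omega) (by omega) l (by
      rw [mem_sh] at hl
      rw [hl]
      push_cast
      ring)
    rw [card_sh_eq_c m _ (by omega)] at h3
    have h5 : k + k = 2 * k := by ring
    rw [h5] at h4
    omega
  · -- `p` has norm `h - 2`
    obtain ⟨p, hp⟩ : ∃ p : Fin m → ℤ, ∑ i, |p i| = (h : ℤ) - 2 := by
      refine ⟨update 0 ⟨0, by omega⟩ ((h : ℤ) - 2), ?_⟩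
      rw [sum_abs_update, abs_of_nonneg (by omega)]
      simp
    obtain ⟨x, hx, hxp⟩ := hcov (val a p)
    rw [mem_sh] at hx
    have e1 := even_diff x p
    have e2 := sum_abs_sub_le x p
    rw [hx, hp] at e1 e2
    have e0 : 0 ≤ ∑ i, |x i - p i| := Finset.sum_nonneg fun _ _ => abs_nonneg _
    obtain ⟨t, ht⟩ : ∃ t : ℕ, ∑ i, |x i - p i| = 2 * (t : ℤ) :=
      ⟨(∑ i, |x i - p i|).toNat / 2, by omega⟩
    have hne : x - p ≠ 0 := by
      intro hc
      have : x = p := sub_eq_zero.mp hc
      rw [this, hp] at hx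
      omega
    have h3 := descent' (h := h) hn a (x - p) hne (by rw [val_sub, hxp, sub_self]) hcov
    obtain ⟨g, hg⟩ : ∃ g, h = t + g := ⟨h - t, by omega⟩
    have h4 := card_sE (t := t) (g := g) (by omega) (by omega) (x - p) ht
    rw [← hg] at h4
    rw [card_sh_eq_c m _ (by omega)] at h3
    omega

end Pool.Agent.H61.SS
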