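import Pool.Agent.H61.SS.Inj

/-! Large moduli. -/

namespace Pool.Agent.H61.SS

open Finset Function

lemma pow_indep (h : ℕ) (hh : 1 ≤ h) : ∀ (m : ℕ) (v : Fin m → ℤ), ∑ i, |v i| ≤ 2 * (h : ℤ) →
    ∑ i, v i * (2 * (h : ℤ)) ^ (i : ℕ) = 0 → v = 0 := by
  intro m
  induction m with
  | zero =>
    intro v _ _
    funext i
    exact i.elim0
  | succ m ih =>
    intro v hv h0
    rw [Fin.sum_univ_succ] at hv h0
    have e1 : ∑ i : Fin m, v i.succ * (2 * (h : ℤ)) ^ ((i.succ : Fin (m + 1)) : ℕ)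
        = (2 * (h : ℤ)) * ∑ i : Fin m, v i.succ * (2 * (h : ℤ)) ^ (i : ℕ) := by
      rw [Finset.mul_sum]
      refine Finset.sum_congr rfl fun i _ => ?_
      rw [Fin.val_succ, pow_succ]
      ring
    rw [e1, Fin.val_zero, pow_zero, mul_one] at h0
    have hnn : 0 ≤ ∑ i : Fin m, |v i.succ| := Finset.sum_nonneg fun _ _ => abs_nonneg _
    by_cases hv0 : v 0 = 0
    · rw [hv0, zero_add] at h0
      have h2 : ∑ i : Fin m, v i.succ * (2 * (h : ℤ)) ^ (i : ℕ) = 0 := by
        rcases mul_eq_zero.mp h0 with h3 | h3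
        · omega
        · exact h3
      have h3 := ih (fun i => v i.succ) (by rw [hv0, abs_zero] at hv; omega) h2
      funext i
      refine Fin.cases ?_ (fun i => ?_) i
      · exact hv0
      · exact congrFun h3 i
    · exfalso
      have hdvd : (2 * (h : ℤ)) ∣ v 0 := by
        refine ⟨-(∑ i : Fin m, v i.succ * (2 * (h : ℤ)) ^ (i : ℕ)), ?_⟩
        linarith
      have h4 : 2 * (h : ℤ) ≤ |v 0| :=
        Int.le_of_dvd (abs_pos.mpr hv0) ((dvd_abs _ _).mpr hdvd)
      have h5 : ∑ i : Fin m, |v i.succ| = 0 := by omega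
      have h6 : ∀ i : Fin m, v i.succ = 0 := by
        intro i
        have := (Finset.sum_eq_zero_iff_of_nonneg (fun _ _ => abs_nonneg _)).mp h5 i
          (Finset.mem_univ i)
        exact abs_eq_zero.mp this
      rw [Finset.sum_congr rfl fun i _ => by rw [h6 i, zero_mul]] at h0
      simp at h0
      exact hv0 h0

lemma val_int {n m : ℕ} (B : Fin m → ℤ) (l : Fin m → ℤ) :
    val (fun i => (B i : ZMod n)) l = ((∑ i, l i * B i : ℤ) : ZMod n) := by
  unfold val
  push_cast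
  refine Finset.sum_congr rfl fun i _ => ?_
  rw [zsmul_eq_mul]

/-- For large moduli the bound `c h m` is attained. -/
theorem large {n m h : ℕ} (hm : 1 ≤ m) (hh : 1 ≤ h) (hn : (2 * h) ^ m < n) :
    ¬ nu n m h < min n (c h m) := by
  classical
  have hpos : 0 < n := by omega
  have h2 : 2 ≤ 2 * h := by omega
  have hmn : m ≤ n := by
    have h3 : m < 2 ^ m := Nat.lt_two_pow_self
    have h4 : 2 ^ m ≤ (2 * h) ^ m := Nat.pow_le_pow_left h2 m
    omega
  intro hlt
  have hlt2 : nu n m h < c h m := lt_of_lt_of_le hlt (min_le_right _ _)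
  rw [nu_lt_iff hpos hmn] at hlt2
  obtain ⟨k, rfl⟩ : ∃ k, m = k + 1 := ⟨m - 1, by omega⟩
  have hnz : (2 * (h : ℤ)) ^ (k + 1) < n := by exact_mod_cast hn
  have hb : ∀ i : Fin (k + 1), (2 * (h : ℤ)) ^ (i : ℕ) ≤ (2 * (h : ℤ)) ^ k := by
    intro i
    have := i.2
    exact pow_le_pow_right₀ (by omega) (by omega)
  -- short relations vanish
  have key : ∀ v : Fin (k + 1) → ℤ, ∑ i, |v i| ≤ 2 * (h : ℤ) →
      (n : ℤ) ∣ ∑ i, v i * (2 * (h : ℤ)) ^ (i : ℕ) → v = 0 := by
    intro v hv hdvd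
    refine pow_indep h hh _ v hv (Int.eq_zero_of_abs_lt_dvd hdvd ?_)
    calc |∑ i, v i * (2 * (h : ℤ)) ^ (i : ℕ)| ≤ ∑ i, |v i * (2 * (h : ℤ)) ^ (i : ℕ)| :=
          Finset.abs_sum_le_sum_abs _ _
      _ ≤ ∑ i, |v i| * (2 * (h : ℤ)) ^ k := by
          refine Finset.sum_le_sum fun i _ => ?_
          rw [abs_mul, abs_of_nonneg (a := (2 * (h : ℤ)) ^ (i : ℕ)) (by positivity)]
          exact mul_le_mul_of_nonneg_left (hb i) (abs_nonneg _)
      _ = (∑ i, |v i|) * (2 * (h : ℤ)) ^ k := by rw [Finset.sum_mul]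
      _ ≤ 2 * (h : ℤ) * (2 * (h : ℤ)) ^ k :=
          mul_le_mul_of_nonneg_right hv (by positivity)
      _ = (2 * (h : ℤ)) ^ (k + 1) := by ring
      _ < n := hnz
  have hinjS : Set.InjOn (val (fun i : Fin (k + 1) => (((2 * (h : ℤ)) ^ (i : ℕ) : ℤ) : ZMod n)))
      (sh (k + 1) h) := by
    intro x hx y hy hxy
    rw [Finset.mem_coe, mem_sh] at hx hy
    rw [val_int, val_int, eq_comm, ZMod.intCast_eq_intCast_iff_dvd_sub] at hxy
    have h3 := key (x - y) (by
      have := sum_abs_sub_le x y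
      simp only [Pi.sub_apply]
      omega) (by
      simp only [Pi.sub_apply, sub_mul, Finset.sum_sub_distrib]
      exact hxy)
    exact sub_eq_zero.mp h3
  have hinj : Function.Injective
      (fun i : Fin (k + 1) => (((2 * (h : ℤ)) ^ (i : ℕ) : ℤ) : ZMod n)) := by
    intro i j hij
    simp only at hij
    rw [ZMod.intCast_eq_intCast_iff_dvd_sub] at hij
    have h3 := Int.eq_zero_of_abs_lt_dvd hij (by
      have h5 := hb i
      have h6 := hb j
      have h7 : 0 < (2 * (h : ℤ)) ^ (i : ℕ) := by positivity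
      have h8 : 0 < (2 * (h : ℤ)) ^ (j : ℕ) := by positivity
      have h9 : (2 * (h : ℤ)) ^ k ≤ (2 * (h : ℤ)) ^ (k + 1) :=
        pow_le_pow_right₀ (by omega) (by omega)
      rw [abs_lt]
      omega)
    have h4 : (2 * h) ^ (i : ℕ) = (2 * h) ^ (j : ℕ) := by
      have : (2 * (h : ℤ)) ^ (i : ℕ) = (2 * (h : ℤ)) ^ (j : ℕ) := by omega
      exact_mod_cast this
    exact Fin.ext (Nat.pow_right_injective h2 h4)
  have h3 := hlt2 _ hinj
  rw [Finset.card_image_of_injOn hinjS, card_sh_eq_c _ _ hh] at h3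
  omega

end Pool.Agent.H61.SS
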