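import Pool.Agent.H61.SS.Window
import Pool.Agent.H61.SS.Large

/-! Pairs `{a, b}` and even moduli `n ≥ 2h + 2`. -/

namespace Pool.Agent.H61.SS

open Finset Function

/-- A multiple of `n` strictly between `-n` and `0` does not exist. -/
lemma no_mult {n : ℕ} {t : ℤ} (h1 : -(n : ℤ) < t) (h2 : t < 0) : ¬ (n : ℤ) ∣ t := by
  intro h3
  have := Int.eq_zero_of_abs_lt_dvd h3 (by rw [abs_lt]; omega)
  omega

lemma even_core {n h N : ℕ} (hN : n = 2 * N) (hn : h < N) (j S : ℤ)
    (hj1 : (h : ℤ) - j ≤ j) (hj2 : j ≤ h) (hSodd : ¬ (2 : ℤ) ∣ S)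
    (hk : (n : ℤ) ∣ h * S - (2 * j - h))
    (hc : ∀ z : ℤ, ∃ i e : ℤ, 0 ≤ i ∧ i ≤ h ∧ (e = 1 ∨ e = -1) ∧
      ((n : ℤ) ∣ e * (j - i) - z ∨ (n : ℤ) ∣ e * (j - i * S) - z)) : False := by
  have hNz : (n : ℤ) = 2 * N := by exact_mod_cast hN
  have hnz : (h : ℤ) < N := by exact_mod_cast hn
  have hA : (n : ℤ) ∣ N * S - N := by
    obtain ⟨u, hu⟩ : ∃ u, S - 1 = 2 * u := ⟨(S - 1) / 2, by omega⟩
    refine ⟨u, ?_⟩
    have : (N : ℤ) * S - N = N * (S - 1) := by ring
    rw [this, hu, hNz]
    ring
  have hside : ∀ e i : ℤ, (e = 1 ∨ e = -1) → 0 ≤ i → i ≤ h → e * (j - i) ≤ j ∧ -j ≤ e * (j - i) := by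
    intro e i he h0 h1
    rcases he with rfl | rfl <;> constructor <;> omega
  -- `N` is reached
  obtain ⟨i, hi0, hih, hi⟩ : ∃ i : ℤ, 0 ≤ i ∧ i ≤ h ∧ (n : ℤ) ∣ j - i * S - N := by
    obtain ⟨i, e, hi0, hih, he, h1 | h1⟩ := hc N
    · exfalso
      have := hside e i he hi0 hih
      exact no_mult (by omega) (by omega) h1
    · refine ⟨i, hi0, hih, ?_⟩
      rcases he with rfl | rfl
      · rwa [one_mul] at h1
      · have : j - i * S - N = -(-1 * (j - i * S) - N) - n := by rw [hNz]; ring
        rw [this]
        exact dvd_sub h1.neg_right (dvd_refl _)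
  have hi1 : 1 ≤ i := by
    by_contra hcon
    have : i = 0 := by omega
    subst this
    rw [zero_mul, sub_zero] at hi
    exact no_mult (by omega) (by omega) hi
  have hi2 : i ≤ h - 1 := by
    by_contra hcon
    have : i = h := by omega
    subst this
    have h1 := dvd_add hi hk
    have h2 : j - (h : ℤ) * S - N + (h * S - (2 * j - h)) = h - j - N := by ring
    rw [h2] at h1
    exact no_mult (by omega) (by omega) h1
  -- `P₁ = (i, N - j)` and `P₃ = (N - (h - i), -(h - j))`
  have hP1 : (n : ℤ) ∣ i * S + (N - j) := by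
    have : i * S + (N - j) = -(j - i * S - N) := by ring
    rw [this]
    exact hi.neg_right
  have hi' : (n : ℤ) ∣ (h - i) * S - (N - (h - j)) := by
    have : (h - i) * S - (N - (h - j)) = (h * S - (2 * j - h)) + (j - i * S - N) := by ring
    rw [this]
    exact dvd_add hk hi
  have hP3 : (n : ℤ) ∣ (N - (h - i)) * S - (h - j) := by
    have : ((N : ℤ) - (h - i)) * S - (h - j) = (N * S - N) - ((h - i) * S - (N - (h - j))) := by ring
    rw [this]
    exact dvd_sub hA hi'
  -- every `Y` with `|Y| < N - j` is a short multiple of `S`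
  have hC : ∀ Y : ℤ, |Y| < N - j → ∃ w : ℤ, |w| ≤ max i (h - i) ∧ (n : ℤ) ∣ w * S - Y := by
    intro Y hY
    rw [abs_lt] at hY
    obtain ⟨k, e, hk0, hkh, he, h1 | h1⟩ := hc (N + Y)
    · exfalso
      have := hside e k he hk0 hkh
      exact no_mult (by omega) (by omega) h1
    · rcases he with rfl | rfl
      · refine ⟨i - k, ?_, ?_⟩
        · rw [abs_le]
          omega
        · have : (i - k) * S - Y = (1 * (j - k * S) - (N + Y)) - (j - i * S - N) := by ring
          rw [this]
          exact dvd_sub h1 hi
      · refine ⟨k - i, ?_, ?_⟩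
        · rw [abs_le]
          omega
        · have : (k - i) * S - Y = (-1 * (j - k * S) - (N + Y)) + (j - i * S - N) + n := by
            rw [hNz]
            ring
          rw [this]
          exact dvd_add (dvd_add h1 hi) (dvd_refl _)
  -- `S` is a unit
  have hunit : IsCoprime S (n : ℤ) := by
    by_cases hy : (N : ℤ) - j = 1
    · exfalso
      have hjh : j = h := by omega
      have h1 : (n : ℤ) ∣ S - 1 := by
        have : S - 1 = (N * S - N) - (h * S - (2 * j - h)) := by
          have h3 : (h : ℤ) = N - 1 := by omega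
          rw [hjh, h3]
          ring
        rw [this]
        exact dvd_sub hA hk
      have h2 : (n : ℤ) ∣ j - i - N := by
        have : j - i - N = (j - i * S - N) + i * (S - 1) := by ring
        rw [this]
        exact dvd_add hi (h1.mul_left _)
      exact no_mult (by omega) (by omega) h2
    · obtain ⟨u, _, t, ht⟩ := hC 1 (by rw [abs_one]; omega)
      exact ⟨u, -t, by linarith⟩
  -- the box contains no point of the other coset
  have hE : ∀ X Y : ℤ, |X| ≤ N - max i (h - i) → |Y| < N - j → ¬ (n : ℤ) ∣ X * S + Y - N := by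
    intro X Y hX hY hdvd
    obtain ⟨w, hw, hwd⟩ := hC (-Y) (by rwa [abs_neg])
    have h1 : (n : ℤ) ∣ (X - w - N) * S := by
      have : (X - w - N) * S = (X * S + Y - N) - (w * S - -Y) - (N * S - N) := by ring
      rw [this]
      exact dvd_sub (dvd_sub hdvd hwd) hA
    have h2 : (n : ℤ) ∣ X - w - N := hunit.symm.dvd_of_dvd_mul_right h1
    have hM : 0 ≤ max i (h - i) := le_max_of_le_left hi0
    have h3 : |X - w| ≤ N := by
      have := abs_sub X w
      omega
    rw [abs_le] at h3
    have h4 : |w| = max i (h - i) := by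
      by_contra hne
      have h5 : |w| < max i (h - i) := lt_of_le_of_ne hw hne
      have h6 : |X - w| < N := by
        have := abs_sub X w
        omega
      rw [abs_lt] at h6
      exact no_mult (by omega) (by omega) h2
    rw [abs_lt] at hY
    rcases le_total (h - i) i with hcase | hcase
    · rw [max_eq_left hcase] at h4
      rcases abs_cases w with ⟨e1, _⟩ | ⟨e1, _⟩
      · have hwi : w = i := by omega
        rw [hwi] at hwd
        have h5 := dvd_sub hwd hP1
        have h6 : i * S - -Y - (i * S + (N - j)) = Y - (N - j) := by ring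
        rw [h6] at h5
        exact no_mult (by omega) (by omega) h5
      · have hwi : w = -i := by omega
        rw [hwi] at hwd
        have h5 := (dvd_add hwd hP1).neg_right
        have h6 : -(-i * S - -Y + (i * S + (N - j))) = -Y - (N - j) := by ring
        rw [h6] at h5
        exact no_mult (by omega) (by omega) h5
    · rw [max_eq_right hcase] at h4
      rcases abs_cases w with ⟨e1, _⟩ | ⟨e1, _⟩
      · have hwi : w = h - i := by omega
        rw [hwi] at hwd
        have h5 := (dvd_sub hwd hi').neg_right
        have h6 : -((h - i) * S - -Y - ((h - i) * S - (N - (h - j)))) = -Y - (N - (h - j)) := by ring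
        rw [h6] at h5
        exact no_mult (by omega) (by omega) h5
      · have hwi : w = -(h - i) := by omega
        rw [hwi] at hwd
        have h5 := dvd_add hwd hi'
        have h6 : -(h - i) * S - -Y + ((h - i) * S - (N - (h - j))) = Y - (N - (h - j)) := by ring
        rw [h6] at h5
        exact no_mult (by omega) (by omega) h5
  rcases le_or_gt (h - i) i with hcase | hcase
  · refine hE (h - i) (h - j) ?_ ?_ ?_
    · rw [max_eq_left hcase, abs_of_nonneg (by omega)]
      omega
    · rw [abs_of_nonneg (by omega)]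
      omega
    · have : (h - i) * S + (h - j) - N = (h - i) * S - (N - (h - j)) := by ring
      rw [this]
      exact hi'
  · -- walk along the strip
    have hwalk : ∀ k : ℕ, ∃ X Y : ℤ, X ≤ N - (h - i) ∧ 0 ≤ Y ∧ Y < N - j ∧
        (n : ℤ) ∣ X * S + Y - N ∧ (-(N - (h - i)) ≤ X ∨ -N + (k : ℤ) ≤ X) := by
      intro k
      induction k with
      | zero =>
        refine ⟨-N, 0, by omega, le_rfl, by omega, ?_, Or.inr (by simp)⟩
        have : -(N : ℤ) * S + 0 - N = -(N * S - N) - n := by rw [hNz]; ring
        rw [this]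
        exact dvd_sub hA.neg_right (dvd_refl _)
      | succ k ih =>
        obtain ⟨X, Y, hX, hY0, hY1, hd, hor⟩ := ih
        by_cases hXx : -(N - (h - i)) ≤ X
        · exact ⟨X, Y, hX, hY0, hY1, hd, Or.inl hXx⟩
        · have hXk : -N + (k : ℤ) ≤ X := by
            rcases hor with h1 | h1
            · exact absurd h1 hXx
            · exact h1
          by_cases hYj : (h : ℤ) - j ≤ Y
          · refine ⟨X + (N - (h - i)), Y - (h - j), by omega, by omega, by omega, ?_, Or.inr ?_⟩
            · have : (X + (N - (h - i))) * S + (Y - (h - j)) - N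
                = (X * S + Y - N) + ((N - (h - i)) * S - (h - j)) := by ring
              rw [this]
              exact dvd_add hd hP3
            · push_cast
              omega
          · refine ⟨X + (N - (h - i)) + i, Y + (N - j) - (h - j), by omega, by omega, by omega,
              ?_, Or.inr ?_⟩
            · have : (X + (N - (h - i)) + i) * S + (Y + (N - j) - (h - j)) - N
                = (X * S + Y - N) + ((N - (h - i)) * S - (h - j)) + (i * S + (N - j)) := by ring
              rw [this]
              exact dvd_add (dvd_add hd hP3) hP1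
            · push_cast
              omega
    obtain ⟨X, Y, hX, hY0, hY1, hd, hor⟩ := hwalk N
    refine hE X Y ?_ ?_ hd
    · rw [max_eq_right hcase.le, abs_le]
      rcases hor with h1 | h1 <;> constructor <;> omega
    · rw [abs_of_nonneg hY0]
      exact hY1

end Pool.Agent.H61.SS
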