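import Pool.Agent.H61.SS.Basic

/-! If `val a` is injective on the norm-`h` sphere then its kernel has no short even vector. -/

namespace Pool.Agent.H61.SS

open Finset Function

lemma sum_abs_update {m : ℕ} (l : Fin m → ℤ) (i : Fin m) (x : ℤ) :
    ∑ j, |update l i x j| = |x| + (∑ j, |l j| - |l i|) := by
  rw [← Finset.add_sum_erase _ _ (Finset.mem_univ i),
    ← Finset.add_sum_erase (Finset.univ) (fun j => |l j|) (Finset.mem_univ i), update_self]
  have : ∑ j ∈ univ.erase i, |update l i x j| = ∑ j ∈ univ.erase i, |l j| := by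
    refine Finset.sum_congr rfl fun j hj => ?_
    rw [update_of_ne (Finset.ne_of_mem_erase hj)]
  rw [this]
  ring

lemma exists_sub {m : ℕ} (v : Fin m → ℤ) (r : ℕ) (hr : (r : ℤ) ≤ ∑ i, |v i|) :
    ∃ p : Fin m → ℤ, ∑ i, |p i| = (r : ℤ) ∧ ∀ i, |p i| + |v i - p i| = |v i| := by
  induction r with
  | zero => exact ⟨0, by simp, by simp⟩
  | succ r ih =>
    push_cast at hr
    obtain ⟨p, hp, hc⟩ := ih (by omega)
    obtain ⟨i, hi⟩ : ∃ i, v i - p i ≠ 0 := by
      by_contra hcon
      push Not at hcon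
      have : ∑ i, |v i| = ∑ i, |p i| := Finset.sum_congr rfl fun i _ => by
        rw [← hc i, hcon i]
        simp
      omega
    have hci := hc i
    rcases lt_or_gt_of_ne hi with h1 | h1
    · have hs : |p i - 1| = |p i| + 1 := by
        rcases abs_cases (p i) with ⟨e1, e2⟩ | ⟨e1, e2⟩ <;>
        rcases abs_cases (v i - p i) with ⟨e3, e4⟩ | ⟨e3, e4⟩ <;>
        rcases abs_cases (v i) with ⟨e5, e6⟩ | ⟨e5, e6⟩ <;>
        rcases abs_cases (p i - 1) with ⟨e7, e8⟩ | ⟨e7, e8⟩ <;> omega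
      refine ⟨update p i (p i - 1), ?_, ?_⟩
      · rw [sum_abs_update, hp, hs]
        push_cast
        ring
      · intro j
        by_cases hj : j = i
        · subst hj
          have e1 : |v j - (p j - 1)| = -(v j - (p j - 1)) := abs_of_nonpos (by omega)
          rw [update_self, hs, ← hci, e1, abs_of_neg h1]
          ring
        · rw [update_of_ne hj]
          exact hc j
    · have hs : |p i + 1| = |p i| + 1 := by
        rcases abs_cases (p i) with ⟨e1, e2⟩ | ⟨e1, e2⟩ <;>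
        rcases abs_cases (v i - p i) with ⟨e3, e4⟩ | ⟨e3, e4⟩ <;>
        rcases abs_cases (v i) with ⟨e5, e6⟩ | ⟨e5, e6⟩ <;>
        rcases abs_cases (p i + 1) with ⟨e7, e8⟩ | ⟨e7, e8⟩ <;> omega
      refine ⟨update p i (p i + 1), ?_, ?_⟩
      · rw [sum_abs_update, hp, hs]
        push_cast
        ring
      · intro j
        by_cases hj : j = i
        · subst hj
          have e1 : |v j - (p j + 1)| = v j - (p j + 1) := abs_of_nonneg (by omega)
          rw [update_self, hs, ← hci, e1, abs_of_pos h1]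
          ring
        · rw [update_of_ne hj]
          exact hc j

lemma exists_diff {m h : ℕ} (hm : 2 ≤ m) (v : Fin m → ℤ) (t : ℕ) (ht : t ≤ h)
    (hv : ∑ i, |v i| = 2 * (t : ℤ)) : ∃ x ∈ sh m h, ∃ y ∈ sh m h, x - y = v := by
  have ht' : (t : ℤ) ≤ h := by exact_mod_cast ht
  obtain ⟨i0, i1, h01⟩ : ∃ i0 i1 : Fin m, i0 ≠ i1 :=
    ⟨⟨0, by omega⟩, ⟨1, by omega⟩, by simp [Fin.ext_iff]⟩
  by_cases hc : |v i0| ≤ t
  · obtain ⟨r, hr⟩ : ∃ r : ℕ, (r : ℤ) = t - |v i0| := ⟨(t - |v i0|).toNat, by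
      rw [Int.toNat_of_nonneg (by omega)]⟩
    have hv' : ∑ i, |update v i0 0 i| = 2 * (t : ℤ) - |v i0| := by
      rw [sum_abs_update, hv]
      simp
    obtain ⟨p, hp, hpc⟩ := exists_sub (update v i0 0) r (by
      rw [hv', hr]
      have : 0 ≤ |v i0| := abs_nonneg _
      omega)
    have hp0 : p i0 = 0 := by
      have h1 := hpc i0
      rw [update_self] at h1
      rcases abs_cases (p i0) with ⟨e1, e2⟩ | ⟨e1, e2⟩ <;>
      rcases abs_cases (0 - p i0) with ⟨e3, e4⟩ | ⟨e3, e4⟩ <;> simp at h1 <;> omega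
    obtain ⟨z, hz1, hz2⟩ : ∃ z : ℤ, |z| = h - t ∧ |v i0 + z| = |v i0| + (h - t) := by
      rcases le_total 0 (v i0) with h1 | h1
      · refine ⟨h - t, abs_of_nonneg (by omega), ?_⟩
        rw [abs_of_nonneg h1, abs_of_nonneg (by omega)]
      · refine ⟨-(h - t), ?_, ?_⟩
        · rw [abs_neg, abs_of_nonneg (by omega)]
        · rw [abs_of_nonpos h1, abs_of_nonpos (by omega)]
          ring
    refine ⟨update p i0 (v i0 + z), ?_, update (fun i => p i - update v i0 0 i) i0 z, ?_, ?_⟩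
    · rw [mem_sh, sum_abs_update, hp, hp0, hz2, hr]
      rw [abs_zero]
      ring
    · rw [mem_sh, sum_abs_update, hz1]
      have e1 : ∑ i, |p i - update v i0 0 i| = 2 * (t : ℤ) - |v i0| - r := by
        rw [← hv', ← hp, ← Finset.sum_sub_distrib]
        refine Finset.sum_congr rfl fun i _ => ?_
        rw [← hpc i, abs_sub_comm]
        ring
      rw [e1, hp0, update_self, hr]
      simp
      ring
    · funext i
      by_cases hi : i = i0
      · subst hi
        simp
      · simp [update_of_ne hi]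
  · push Not at hc
    obtain ⟨y0, hy0, hy1⟩ : ∃ y : ℤ, |y| = t ∧ |y - v i0| = |v i0| - t := by
      rcases le_total 0 (v i0) with h1 | h1
      · rw [abs_of_nonneg h1] at hc ⊢
        refine ⟨t, abs_of_nonneg (by omega), ?_⟩
        rw [abs_of_nonpos (by omega)]
        ring
      · rw [abs_of_nonpos h1] at hc ⊢
        refine ⟨-t, ?_, ?_⟩
        · rw [abs_neg, abs_of_nonneg (by omega)]
        · rw [abs_of_nonneg (by omega)]
          ring
    obtain ⟨z, hz1, hz2⟩ : ∃ z : ℤ, |z| = h - t ∧ |z - v i1| = |v i1| + (h - t) := by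
      rcases le_total 0 (v i1) with h1 | h1
      · refine ⟨-(h - t), ?_, ?_⟩
        · rw [abs_neg, abs_of_nonneg (by omega)]
        · rw [abs_of_nonneg h1, abs_of_nonpos (by omega)]
          ring
      · refine ⟨h - t, abs_of_nonneg (by omega), ?_⟩
        rw [abs_of_nonpos h1, abs_of_nonneg (by omega)]
        ring
    refine ⟨update (update 0 i0 y0) i1 z, ?_,
      update (update (fun i => - v i) i0 (y0 - v i0)) i1 (z - v i1), ?_, ?_⟩
    · rw [mem_sh, sum_abs_update, sum_abs_update, update_of_ne h01.symm, hy0, hz1]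
      simp
    · rw [mem_sh, sum_abs_update, sum_abs_update, update_of_ne h01.symm, hy1, hz2]
      simp only [abs_neg]
      rw [hv]
      ring
    · funext i
      by_cases hi : i = i1
      · subst hi
        simp
      · by_cases hi0 : i = i0
        · subst hi0
          simp [update_of_ne hi]
        · simp [update_of_ne hi, update_of_ne hi0]

/-- No nonzero even vector of norm at most `2h` lies in the kernel. -/
lemma ker_of_inj {n m h : ℕ} (hm : 2 ≤ m) (a : Fin m → ZMod n)
    (hinj : Set.InjOn (val a) (sh m h)) (v : Fin m → ℤ) (t : ℕ) (ht : t ≤ h)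
    (hv : ∑ i, |v i| = 2 * (t : ℤ)) (h0 : val a v = 0) : v = 0 := by
  obtain ⟨x, hx, y, hy, hxy⟩ := exists_diff hm v t ht hv
  have : x = y := by
    refine hinj (Finset.mem_coe.mpr hx) (Finset.mem_coe.mpr hy) ?_
    rw [← hxy, val_sub] at h0
    exact sub_eq_zero.mp h0
  rw [← hxy, this, sub_self]

lemma even_diff {m : ℕ} (x y : Fin m → ℤ) :
    (2 : ℤ) ∣ ∑ i, |x i| + ∑ i, |y i| - ∑ i, |x i - y i| := by
  rw [← Finset.sum_add_distrib, ← Finset.sum_sub_distrib]
  refine Finset.dvd_sum fun i _ => ?_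
  rcases abs_cases (x i) with ⟨e1, e2⟩ | ⟨e1, e2⟩ <;>
  rcases abs_cases (y i) with ⟨e3, e4⟩ | ⟨e3, e4⟩ <;>
  rcases abs_cases (x i - y i) with ⟨e5, e6⟩ | ⟨e5, e6⟩ <;> rw [e1, e3, e5] <;> omega

lemma sum_abs_sub_le {m : ℕ} (x y : Fin m → ℤ) :
    ∑ i, |x i - y i| ≤ ∑ i, |x i| + ∑ i, |y i| := by
  rw [← Finset.sum_add_distrib]
  exact Finset.sum_le_sum fun i _ => abs_sub _ _

/-- The vectors of norm `h, h - 2, h - 4, …`. -/
noncomputable def pb (m h : ℕ) : Finset (Fin m → ℤ) :=
  (Finset.range (h / 2 + 1)).biUnion fun j => sh m (h - 2 * j)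

lemma card_pb (m h : ℕ) :
    (pb m h).card + h % 2 = 1 + ∑ j ∈ Finset.range (h / 2 + 1), c (h - 2 * j) m := by
  have e1 : (pb m h).card = ∑ j ∈ Finset.range (h / 2 + 1), (sh m (h - 2 * j)).card := by
    unfold pb
    rw [Finset.card_biUnion]
    intro k hk k' hk' hkk
    rw [Finset.mem_coe, Finset.mem_range] at hk hk'
    show Disjoint (sh m (h - 2 * k)) (sh m (h - 2 * k'))
    rw [Finset.disjoint_left]
    intro l h1 h2
    rw [mem_sh] at h1 h2
    rw [h1] at h2
    apply hkk
    have : h - 2 * k = h - 2 * k' := by exact_mod_cast h2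
    omega
  rw [e1, Finset.sum_range_succ, Finset.sum_range_succ]
  have e2 : ∑ j ∈ Finset.range (h / 2), (sh m (h - 2 * j)).card
      = ∑ j ∈ Finset.range (h / 2), c (h - 2 * j) m := by
    refine Finset.sum_congr rfl fun j hj => ?_
    rw [Finset.mem_range] at hj
    exact card_sh_eq_c m _ (by omega)
  rw [e2]
  rcases Nat.even_or_odd' h with ⟨k, hk | hk⟩
  · have h3 : h - 2 * (h / 2) = 0 := by omega
    rw [h3, card_zero]
    have h4 : c 0 m = 0 := by simp [c]
    rw [h4]
    omega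
  · have h3 : h - 2 * (h / 2) = 1 := by omega
    rw [h3, card_sh_eq_c m 1 le_rfl]
    omega

lemma inj_pb {n m h : ℕ} (hm : 2 ≤ m) (a : Fin m → ZMod n)
    (hinj : Set.InjOn (val a) (sh m h)) : Set.InjOn (val a) (pb m h) := by
  intro x hx y hy hxy
  rw [Finset.mem_coe] at hx hy
  unfold pb at hx hy
  rw [Finset.mem_biUnion] at hx hy
  obtain ⟨i, hi, hx⟩ := hx
  obtain ⟨j, hj, hy⟩ := hy
  rw [Finset.mem_range] at hi hj
  rw [mem_sh] at hx hy
  have h1 := even_diff x y
  have h2 := sum_abs_sub_le x y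
  rw [hx, hy] at h1 h2
  have h0 : 0 ≤ ∑ i, |x i - y i| := Finset.sum_nonneg fun _ _ => abs_nonneg _
  have hi' : ((h - 2 * i : ℕ) : ℤ) = h - 2 * i := by omega
  have hj' : ((h - 2 * j : ℕ) : ℤ) = h - 2 * j := by omega
  rw [hi', hj'] at h1 h2
  obtain ⟨t, ht⟩ : ∃ t : ℕ, ∑ i, |x i - y i| = 2 * (t : ℤ) := by
    refine ⟨(∑ i, |x i - y i|).toNat / 2, ?_⟩
    omega
  have h3 : x - y = 0 := by
    refine ker_of_inj hm a hinj (x - y) t (by omega) ht ?_
    rw [val_sub, hxy, sub_self]
  exact sub_eq_zero.mp h3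

/-- The packing bound. -/
theorem packing {n m h : ℕ} (hm : 2 ≤ m) (hh : 1 ≤ h) (hn : 0 < n) (hmn : m ≤ n)
    (h1 : c h m ≤ n)
    (h2 : n + h % 2 ≤ ∑ j ∈ Finset.range (h / 2 + 1), c (h - 2 * j) m) :
    nu n m h < min n (c h m) := by
  classical
  have : NeZero n := ⟨hn.ne'⟩
  rw [min_eq_right h1, nu_lt_iff hn hmn]
  intro a _
  by_contra hcon
  push Not at hcon
  have h3 : ((sh m h).image (val a)).card = (sh m h).card := by
    refine le_antisymm Finset.card_image_le ?_
    rw [card_sh_eq_c m h hh]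
    exact hcon
  have h4 := inj_pb hm a (Finset.card_image_iff.mp h3)
  have h5 : (pb m h).card ≤ n := by
    have := Finset.card_le_card_of_injOn (s := pb m h) (t := (Finset.univ : Finset (ZMod n)))
      (val a) (fun _ _ => Finset.mem_univ _) h4
    rwa [Finset.card_univ, ZMod.card] at this
  have h6 := card_pb m h
  omega

end Pool.Agent.H61.SS
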