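import Pool.Agent.H61.SS.EvenCase

/-! Pairs `{a, b}`. -/

namespace Pool.Agent.H61.SS

open Finset Function

/-- Every residue is reached. -/
def Cov (n h : ℕ) (A B : ℤ) : Prop :=
  ∀ z : ℤ, ∃ u v : ℤ, |u| + |v| = h ∧ (n : ℤ) ∣ u * A + v * B - z

lemma cov_swap {n h : ℕ} {A B : ℤ} (hc : Cov n h A B) : Cov n h B A := by
  intro z
  obtain ⟨u, v, h1, h2⟩ := hc z
  refine ⟨v, u, by omega, ?_⟩
  have : v * B + u * A - z = u * A + v * B - z := by ring
  rwa [this]

lemma cov_sign {n h : ℕ} {A B : ℤ} (e e' : ℤ) (he : e = 1 ∨ e = -1) (he' : e' = 1 ∨ e' = -1)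
    (hc : Cov n h A B) : Cov n h (e * A) (e' * B) := by
  intro z
  obtain ⟨u, v, h1, h2⟩ := hc z
  refine ⟨e * u, e' * v, ?_, ?_⟩
  · rw [abs_mul, abs_mul]
    rcases he with rfl | rfl <;> rcases he' with rfl | rfl <;> simpa using h1
  · have : e * u * (e * A) + e' * v * (e' * B) - z = (e * e) * (u * A) + (e' * e') * (v * B) - z := by
      ring
    rw [this]
    rcases he with rfl | rfl <;> rcases he' with rfl | rfl <;> simpa using h2

lemma normal_form {n h : ℕ} (hn : 2 * h < n) (A B j : ℤ)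
    (h0 : (n : ℤ) ∣ (h - j) * A + j * B) (hc : Cov n h A B) : ∃ S : ℤ, 2 * |S| ≤ n ∧
      (n : ℤ) ∣ h * S - (2 * j - h) ∧ (Even n → ¬ (2 : ℤ) ∣ S) ∧
      ∀ z : ℤ, ∃ i e : ℤ, 0 ≤ i ∧ i ≤ h ∧ (e = 1 ∨ e = -1) ∧
      ((n : ℤ) ∣ e * (j - i) - z ∨ (n : ℤ) ∣ e * (j - i * S) - z) := by
  obtain ⟨d, hd⟩ : ∃ d, d = A - B := ⟨_, rfl⟩
  obtain ⟨s, hs⟩ : ∃ s, s = A + B := ⟨_, rfl⟩
  have hnz : (2 : ℤ) * h < n := by exact_mod_cast hn
  have hc1 : ∀ z : ℤ, ∃ i e : ℤ, 0 ≤ i ∧ i ≤ h ∧ (e = 1 ∨ e = -1) ∧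
      ((n : ℤ) ∣ e * (j - i) * d - z ∨ (n : ℤ) ∣ e * (j * d - i * s) - z) := by
    intro z
    obtain ⟨u, v, h1, h2⟩ := hc z
    rcases abs_cases u with ⟨e1, e2⟩ | ⟨e1, e2⟩ <;> rcases abs_cases v with ⟨e3, e4⟩ | ⟨e3, e4⟩
    · refine ⟨v, 1, by omega, by omega, Or.inl rfl, Or.inl ?_⟩
      have hu : u = h - v := by omega
      have : 1 * (j - v) * d - z = (u * A + v * B - z) - ((h - j) * A + j * B) := by
        rw [hd, hu]
        ring
      rw [this]
      exact dvd_sub h2 h0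
    · refine ⟨-v, 1, by omega, by omega, Or.inl rfl, Or.inr ?_⟩
      have hu : u = h + v := by omega
      have : 1 * (j * d - -v * s) - z = (u * A + v * B - z) - ((h - j) * A + j * B) := by
        rw [hd, hs, hu]
        ring
      rw [this]
      exact dvd_sub h2 h0
    · refine ⟨v, -1, by omega, by omega, Or.inr rfl, Or.inr ?_⟩
      have hu : u = -(h - v) := by omega
      have : -1 * (j * d - v * s) - z = (u * A + v * B - z) + ((h - j) * A + j * B) := by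
        rw [hd, hs, hu]
        ring
      rw [this]
      exact dvd_add h2 h0
    · refine ⟨-v, -1, by omega, by omega, Or.inr rfl, Or.inl ?_⟩
      have hu : u = -(h + v) := by omega
      have : -1 * (j - -v) * d - z = (u * A + v * B - z) + ((h - j) * A + j * B) := by
        rw [hd, hu]
        ring
      rw [this]
      exact dvd_add h2 h0
  have hs1 : (n : ℤ) ∣ h * s - (2 * j - h) * d := by
    have : h * s - (2 * j - h) * d = 2 * ((h - j) * A + j * B) := by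
      rw [hd, hs]
      ring
    rw [this]
    exact h0.mul_left _
  have hcop := step1 hn j d s hs1 hc1
  obtain ⟨x, y, hxy⟩ := hcop
  -- a small representative of `s / d`
  obtain ⟨S, hS1, hS2⟩ : ∃ S : ℤ, 2 * |S| ≤ n ∧ (n : ℤ) ∣ S * d - s := by
    have hr0 : 0 ≤ (s * x) % (n : ℤ) := Int.emod_nonneg _ (by omega)
    have hr1 : (s * x) % (n : ℤ) < n := Int.emod_lt_of_pos _ (by omega)
    have hr2 : (n : ℤ) ∣ s * x - (s * x) % (n : ℤ) := Int.dvd_self_sub_emod
    generalize (s * x) % (n : ℤ) = r at hr0 hr1 hr2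
    have hbase : (n : ℤ) ∣ r * d - s := by
      have : r * d - s = -(s * x - r) * d - s * y * n := by
        have h5 : s = s * (x * d + y * n) := by rw [hxy, mul_one]
        nlinarith
      rw [this]
      exact dvd_sub ((hr2.neg_right).mul_right _) (Dvd.intro_left _ rfl)
    by_cases hcase : 2 * r ≤ n
    · exact ⟨r, by rw [abs_of_nonneg hr0]; exact hcase, hbase⟩
    · refine ⟨r - n, ?_, ?_⟩
      · rw [abs_of_nonpos (by omega)]
        omega
      · have : (r - n) * d - s = (r * d - s) - n * d := by ring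
        rw [this]
        exact dvd_sub hbase (Dvd.intro _ rfl)
  have hcopn : IsCoprime (n : ℤ) d := ⟨y, x, by linarith⟩
  have hk : (n : ℤ) ∣ h * S - (2 * j - h) := by
    refine hcopn.dvd_of_dvd_mul_right ?_
    have : (h * S - (2 * j - h)) * d = h * (S * d - s) + (h * s - (2 * j - h) * d) := by ring
    rw [this]
    exact dvd_add (hS2.mul_left _) hs1
  refine ⟨S, hS1, hk, ?_, ?_⟩
  · rintro ⟨N, hN⟩ ⟨S', hS'⟩
    -- `d` is odd, so `s` is odd, but `s ≡ S d`
    have hn2 : (2 : ℤ) ∣ n := ⟨N, by omega⟩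
    have h1 : (2 : ℤ) ∣ S * d - s := hn2.trans hS2
    have h2 : (2 : ℤ) ∣ s := by
      have : s = S * d - (S * d - s) := by ring
      rw [this]
      refine dvd_sub ?_ h1
      rw [hS']
      exact ⟨S' * d, by ring⟩
    have h3 : (2 : ℤ) ∣ d := by
      have : d = s - 2 * B := by rw [hd, hs]; ring
      rw [this]
      exact dvd_sub h2 ⟨B, rfl⟩
    have h4 : (2 : ℤ) ∣ 1 := by
      rw [← hxy]
      exact dvd_add (h3.mul_left _) (hn2.mul_left _)
    omega
  intro z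
  obtain ⟨i, e, hi0, hih, he, h1 | h1⟩ := hc1 (z * d)
  · refine ⟨i, e, hi0, hih, he, Or.inl ?_⟩
    refine hcopn.dvd_of_dvd_mul_right ?_
    have : (e * (j - i) - z) * d = e * (j - i) * d - z * d := by ring
    rw [this]
    exact h1
  · refine ⟨i, e, hi0, hih, he, Or.inr ?_⟩
    refine hcopn.dvd_of_dvd_mul_right ?_
    have : (e * (j - i * S) - z) * d = (e * (j * d - i * s) - z * d) - e * i * (S * d - s) := by ring
    rw [this]
    exact dvd_sub h1 (hS2.mul_left _)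

/-- Reduction to normal form. -/
lemma reduce {n h : ℕ} (hn : 2 * h < n) (A B : ℤ) (hc : Cov n h A B) :
    ∃ j S : ℤ, (h : ℤ) - j ≤ j ∧ j ≤ h ∧ 2 * |S| ≤ n ∧
      (n : ℤ) ∣ h * S - (2 * j - h) ∧ (Even n → ¬ (2 : ℤ) ∣ S) ∧
      ∀ z : ℤ, ∃ i e : ℤ, 0 ≤ i ∧ i ≤ h ∧ (e = 1 ∨ e = -1) ∧
      ((n : ℤ) ∣ e * (j - i) - z ∨ (n : ℤ) ∣ e * (j - i * S) - z) := by
  obtain ⟨u, v, h1, h2⟩ := hc 0
  rw [sub_zero] at h2
  obtain ⟨e, he, heu⟩ : ∃ e : ℤ, (e = 1 ∨ e = -1) ∧ u = |u| * e := by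
    rcases abs_cases u with ⟨e1, e2⟩ | ⟨e1, e2⟩
    · exact ⟨1, Or.inl rfl, by omega⟩
    · exact ⟨-1, Or.inr rfl, by omega⟩
  obtain ⟨e', he', hev⟩ : ∃ e : ℤ, (e = 1 ∨ e = -1) ∧ v = |v| * e := by
    rcases abs_cases v with ⟨e1, e2⟩ | ⟨e1, e2⟩
    · exact ⟨1, Or.inl rfl, by omega⟩
    · exact ⟨-1, Or.inr rfl, by omega⟩
  have hc1 := cov_sign e e' he he' hc
  have hu0 := abs_nonneg u
  have hv0 := abs_nonneg v
  rcases le_total |u| |v| with hle | hle
  · obtain ⟨S, hS⟩ := normal_form hn (e * A) (e' * B) |v| (by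
      have : ((h : ℤ) - |v|) * (e * A) + |v| * (e' * B) = u * A + v * B := by
        have h3 : (h : ℤ) - |v| = |u| := by omega
        rw [h3]
        calc |u| * (e * A) + |v| * (e' * B) = (|u| * e) * A + (|v| * e') * B := by ring
          _ = u * A + v * B := by rw [← heu, ← hev]
      rw [this]
      exact h2) hc1
    exact ⟨|v|, S, by omega, by omega, hS⟩
  · obtain ⟨S, hS⟩ := normal_form hn (e' * B) (e * A) |u| (by
      have : ((h : ℤ) - |u|) * (e' * B) + |u| * (e * A) = u * A + v * B := by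
        have h3 : (h : ℤ) - |u| = |v| := by omega
        rw [h3]
        calc |v| * (e' * B) + |u| * (e * A) = (|u| * e) * A + (|v| * e') * B := by ring
          _ = u * A + v * B := by rw [← heu, ← hev]
      rw [this]
      exact h2) (cov_swap hc1)
    exact ⟨|u|, S, by omega, by omega, hS⟩

lemma not_cov {n h : ℕ} (hh : 1 ≤ h) (hn : 3 * h < n) (A B : ℤ) : ¬ Cov n h A B := by
  intro hc
  obtain ⟨j, S, h1, h2, h3, ⟨k, hk⟩, _, h4⟩ := reduce (by omega) A B hc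
  exact step2 hh hn j S h1 h2 h3 k (by linarith) h4

lemma not_cov_even {n h : ℕ} (he : Even n) (hn : 2 * h + 2 ≤ n) (A B : ℤ) : ¬ Cov n h A B := by
  intro hc
  obtain ⟨j, S, h1, h2, h3, hk, h5, h4⟩ := reduce (by omega) A B hc
  obtain ⟨N, hN⟩ := he
  exact even_core (N := N) (by omega) (by omega) j S h1 h2 (h5 ⟨N, hN⟩) hk h4

lemma exists_int {n : ℕ} (hn : 0 < n) (z : ZMod n) : ∃ x : ℤ, 0 ≤ x ∧ x < n ∧ z = (x : ZMod n) := by
  have : NeZero n := ⟨hn.ne'⟩
  refine ⟨(z.val : ℤ), by positivity, ?_, by simp⟩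
  exact_mod_cast ZMod.val_lt z

lemma cov_of_univ {n h : ℕ} (hn : 0 < n) (a : Fin 2 → ZMod n)
    (hcov : ∀ z, ∃ μ ∈ sh 2 h, val a μ = z) : ∃ A B : ℤ, Cov n h A B := by
  obtain ⟨A, _, _, hA⟩ := exists_int hn (a 0)
  obtain ⟨B, _, _, hB⟩ := exists_int hn (a 1)
  refine ⟨A, B, fun z => ?_⟩
  obtain ⟨μ, hμ, hz⟩ := hcov (z : ZMod n)
  rw [mem_sh, Fin.sum_univ_two] at hμ
  rw [val_two a A B hA hB, eq_comm, ZMod.intCast_eq_intCast_iff_dvd_sub] at hz
  exact ⟨μ 0, μ 1, hμ, hz⟩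

/-- If every residue is reached by a pair of distinct elements, the bound `n` is attained. -/
lemma not_lt_of_cov {n h : ℕ} (hn : 2 ≤ n) (A B : ℤ) (hAB : (A : ZMod n) ≠ (B : ZMod n))
    (hc : Cov n h A B) : ¬ nu n 2 h < n := by
  classical
  have : NeZero n := ⟨by omega⟩
  rw [nu_lt_iff (by omega) hn]
  intro hall
  have hinj : Function.Injective ![(A : ZMod n), (B : ZMod n)] := by
    intro i j hij
    fin_cases i <;> fin_cases j
    · rfl
    · exact absurd hij hAB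
    · exact absurd hij.symm hAB
    · rfl
  have h1 := hall _ hinj
  have h2 : (sh 2 h).image (val ![(A : ZMod n), (B : ZMod n)]) = Finset.univ := by
    rw [Finset.eq_univ_iff_forall]
    intro z
    obtain ⟨x, _, _, rfl⟩ := exists_int (by omega) z
    obtain ⟨u, v, huv, hdvd⟩ := hc x
    rw [Finset.mem_image]
    refine ⟨![u, v], ?_, ?_⟩
    · rw [mem_sh, Fin.sum_univ_two]
      simpa using huv
    · rw [val_two _ A B rfl rfl, eq_comm, ZMod.intCast_eq_intCast_iff_dvd_sub]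
      simpa using hdvd
  rw [h2, Finset.card_univ, ZMod.card] at h1
  omega

lemma cov_small {n h : ℕ} (hn : n ≤ 2 * h + 1) (hn0 : 0 < n) : Cov n h 0 1 := by
  intro z
  have h1 : 0 ≤ z % (n : ℤ) := Int.emod_nonneg _ (by omega)
  have h2 : z % (n : ℤ) < n := Int.emod_lt_of_pos _ (by omega)
  have h3 : (n : ℤ) ∣ z - z % (n : ℤ) := Int.dvd_self_sub_emod
  generalize z % (n : ℤ) = r at h1 h2 h3
  by_cases hc : r ≤ h
  · refine ⟨h - r, r, ?_, ?_⟩
    · rw [abs_of_nonneg (by omega), abs_of_nonneg (by omega)]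
      ring
    · have : (h - r) * 0 + r * 1 - z = -(z - r) := by ring
      rw [this]
      exact h3.neg_right
  · refine ⟨h - (n - r), r - n, ?_, ?_⟩
    · rw [abs_of_nonneg (by omega), abs_of_nonpos (by omega)]
      ring
    · have : (h - (n - r)) * 0 + (r - n) * 1 - z = -(z - r) - n := by ring
      rw [this]
      exact dvd_sub h3.neg_right (dvd_refl _)

lemma odd_rep {h k q : ℕ} (hh : h = 2 ^ k * q) (hq : Odd q) (r : ℤ) (hr : r % 2 = 1)
    (h0 : 0 ≤ r) (h3 : r ≤ 2 * h + q) :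
    ∃ u v : ℤ, |u| + |v| = h ∧ u * (2 * 2 ^ k - 1) + v * (2 * 2 ^ k + 1) = 2 ^ k * r := by
  obtain ⟨P, hP⟩ : ∃ P : ℤ, P = 2 ^ k := ⟨_, rfl⟩
  have hhz : (h : ℤ) = P * q := by rw [hh, hP]; push_cast; ring
  have hP1 : 1 ≤ P := by rw [hP]; exact one_le_pow₀ (by norm_num)
  obtain ⟨q', hq'⟩ := hq
  have hqz : (q : ℤ) % 2 = 1 := by omega
  rw [← hP]
  -- it is enough to find `x, y`
  have key : ∀ x y : ℤ, max |x| |y| = h → (x + y) % 2 = 0 → 2 * P * x + y = P * r →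
      ∃ u v : ℤ, |u| + |v| = h ∧ u * (2 * P - 1) + v * (2 * P + 1) = P * r := by
    intro x y h1 h2 h4
    obtain ⟨v, hv⟩ : ∃ v, x + y = 2 * v := ⟨(x + y) / 2, by omega⟩
    refine ⟨x - v, v, ?_, ?_⟩
    · rcases abs_cases x with ⟨e1, e2⟩ | ⟨e1, e2⟩ <;>
      rcases abs_cases y with ⟨e3, e4⟩ | ⟨e3, e4⟩ <;>
      rcases abs_cases (x - v) with ⟨e5, e6⟩ | ⟨e5, e6⟩ <;>
      rcases abs_cases v with ⟨e7, e8⟩ | ⟨e7, e8⟩ <;> omega
    · have : y = 2 * v - x := by omega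
      rw [← h4, this]
      ring
  by_cases hc : 2 * (h : ℤ) - q ≤ r
  · refine key h (P * r - 2 * P * h) ?_ ?_ (by ring)
    · rw [abs_of_nonneg (by omega)]
      refine max_eq_left ?_
      rw [abs_le]
      constructor <;> nlinarith
    · have h5 : (h : ℤ) + (P * r - 2 * P * h) = P * (q + r) - 2 * (P * h) := by rw [hhz]; ring
      rw [h5]
      obtain ⟨w, hw⟩ : ∃ w, (q : ℤ) + r = 2 * w := ⟨((q : ℤ) + r) / 2, by omega⟩
      rw [hw]
      have h6 : P * (2 * w) - 2 * (P * h) = 2 * (P * w - P * h) := by ring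
      rw [h6]
      omega
  · push Not at hc
    have h5 : (r - q) % 2 = 0 := by omega
    by_cases hpar : ((r - q) / 2 + h) % 2 = 0
    · refine key ((r - q) / 2) h ?_ hpar ?_
      · rw [abs_of_nonneg (by omega : (0 : ℤ) ≤ h)]
        refine max_eq_right ?_
        rw [abs_le]
        omega
      · obtain ⟨w, hw⟩ : ∃ w, r - q = 2 * w := ⟨(r - q) / 2, by omega⟩
        have h6 : (r - q) / 2 = w := by omega
        rw [h6, hhz]
        have h7 : r = 2 * w + q := by omega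
        rw [h7]
        ring
    · refine key ((r + q) / 2) (-h) ?_ (by omega) ?_
      · rw [abs_neg, abs_of_nonneg (by omega : (0 : ℤ) ≤ h)]
        refine max_eq_right ?_
        rw [abs_le]
        omega
      · obtain ⟨w, hw⟩ : ∃ w, r + q = 2 * w := ⟨(r + q) / 2, by omega⟩
        have h6 : (r + q) / 2 = w := by omega
        rw [h6, hhz]
        have h7 : r = 2 * w - q := by omega
        rw [h7]
        ring

lemma cov_odd {n h k q : ℕ} (hh : h = 2 ^ k * q) (hq : Odd q) (hn : Odd n)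
    (hle : n ≤ 2 * h + q) : Cov n h (2 * 2 ^ k - 1) (2 * 2 ^ k + 1) := by
  intro z
  obtain ⟨N, hN⟩ := hn
  have hcop : IsCoprime ((2 : ℤ) ^ k) (n : ℤ) := by
    refine IsCoprime.pow_left ⟨-N, 1, ?_⟩
    rw [hN]
    push_cast
    ring
  obtain ⟨x, y, hxy⟩ := hcop
  have h1 : 0 ≤ (z * x) % (n : ℤ) := Int.emod_nonneg _ (by omega)
  have h2 : (z * x) % (n : ℤ) < n := Int.emod_lt_of_pos _ (by omega)
  have h3 : (n : ℤ) ∣ z * x - (z * x) % (n : ℤ) := Int.dvd_self_sub_emod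
  generalize (z * x) % (n : ℤ) = r at h1 h2 h3
  have h4 : (n : ℤ) ∣ 2 ^ k * r - z := by
    have : (2 : ℤ) ^ k * r - z = -(2 ^ k * (z * x - r)) - z * y * n := by
      have h5 : z = z * (x * 2 ^ k + y * n) := by rw [hxy, mul_one]
      nlinarith
    rw [this]
    exact dvd_sub (h3.mul_left _).neg_right (Dvd.intro_left _ rfl)
  by_cases hc : r % 2 = 1
  · obtain ⟨u, v, h5, h6⟩ := odd_rep hh hq r hc h1 (by omega)
    exact ⟨u, v, h5, by rw [h6]; exact h4⟩
  · obtain ⟨u, v, h5, h6⟩ := odd_rep hh hq (n - r) (by omega) (by omega) (by omega)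
    refine ⟨-u, -v, by rw [abs_neg, abs_neg]; exact h5, ?_⟩
    have : -u * (2 * 2 ^ k - 1) + -v * (2 * 2 ^ k + 1) - z = (2 ^ k * r - z) - 2 ^ k * n := by
      have h7 : -u * (2 * 2 ^ k - 1) + -v * (2 * 2 ^ k + 1)
        = -(u * (2 * 2 ^ k - 1) + v * (2 * 2 ^ k + 1)) := by ring
      rw [h7, h6]
      ring
    rw [this]
    exact dvd_sub h4 (Dvd.intro_left _ rfl)

lemma lt_of_not_cov {n h : ℕ} (hn : 2 ≤ n) (hnc : ∀ A B : ℤ, ¬ Cov n h A B) : nu n 2 h < n := by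
  classical
  rw [nu_lt_iff (by omega) hn]
  intro a _
  have : NeZero n := ⟨by omega⟩
  refine lt_of_le_of_ne ?_ ?_
  · have := Finset.card_le_univ ((sh 2 h).image (val a))
    rwa [ZMod.card] at this
  · intro hcard
    have huniv : (sh 2 h).image (val a) = Finset.univ := by
      rw [← Finset.card_eq_iff_eq_univ, ZMod.card]
      exact hcard
    obtain ⟨A, B, hc⟩ := cov_of_univ (h := h) (by omega) a (fun z => by
      have : z ∈ (sh 2 h).image (val a) := by
        rw [huniv]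
        exact Finset.mem_univ z
      rwa [Finset.mem_image] at this)
    exact hnc A B hc

/-- Even moduli. -/
theorem pairs_even {n h : ℕ} (hh : 2 ≤ h) (hn : 2 ≤ n) (he : Even n) :
    nu n 2 h < min n (c h 2) ↔
      2 * h + 2 ≤ n ∧ (n < (h + 1) ^ 2 ∨ (Odd h ∧ n ≤ h ^ 2 + 3 * h)) := by
  by_cases h4 : 4 * h ≤ n
  · rw [two hh h4]
    constructor
    · rintro (h5 | ⟨h5, _, h6⟩)
      · exact ⟨by omega, Or.inl h5⟩
      · exact ⟨by omega, Or.inr ⟨h5, h6⟩⟩
    · rintro ⟨_, h5 | ⟨h5, h6⟩⟩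
      · exact Or.inl h5
      · exact Or.inr ⟨h5, he, h6⟩
  · push Not at h4
    rw [c_two hh, min_eq_left h4.le]
    by_cases h3 : 2 * h + 2 ≤ n
    · exact ⟨fun _ => ⟨h3, Or.inl (by nlinarith)⟩, fun _ =>
        lt_of_not_cov hn (not_cov_even he h3)⟩
    · refine ⟨fun h5 => absurd h5 ?_, fun h5 => absurd h5.1 h3⟩
      refine not_lt_of_cov hn 0 1 ?_ (cov_small (by omega) (by omega))
      have : Fact (1 < n) := ⟨by omega⟩
      simp

/-- Odd moduli. -/
theorem pairs_odd {n h k q : ℕ} (hh : 2 ≤ h) (hn : 2 ≤ n) (ho : Odd n) (hhq : h = 2 ^ k * q)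
    (hq : Odd q) (hw : n ≤ 2 * h + q ∨ 3 * h < n) :
    nu n 2 h < min n (c h 2) ↔ 3 * h < n ∧ n < (h + 1) ^ 2 := by
  have hqh : q ≤ h := by
    rw [hhq]
    exact Nat.le_mul_of_pos_left _ (by positivity)
  by_cases h4 : 4 * h ≤ n
  · rw [two hh h4]
    constructor
    · rintro (h5 | ⟨_, h5, _⟩)
      · exact ⟨by omega, h5⟩
      · exact absurd h5 (Nat.not_even_iff_odd.mpr ho)
    · exact fun h5 => Or.inl h5.2
  · push Not at h4
    rw [c_two hh, min_eq_left h4.le]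
    by_cases h3 : 3 * h < n
    · exact ⟨fun _ => ⟨h3, by nlinarith⟩, fun _ =>
        lt_of_not_cov hn (not_cov (by omega) h3)⟩
    · refine ⟨fun h5 => absurd h5 ?_, fun h5 => absurd h5.1 h3⟩
      rcases hw with h6 | h6
      · refine not_lt_of_cov hn _ _ ?_ (cov_odd hhq hq ho h6)
        intro he
        rw [ZMod.intCast_eq_intCast_iff_dvd_sub] at he
        have h7 : (2 * 2 ^ k + 1 - (2 * 2 ^ k - 1) : ℤ) = 2 := by ring
        rw [h7] at he
        obtain ⟨N, hN⟩ := ho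
        have := Int.le_of_dvd (by norm_num) he
        omega
      · exact absurd h6 h3

end Pool.Agent.H61.SS
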