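import Pool.Agent.H61.SS.Inj

/-! The case `m = 2`. -/

namespace Pool.Agent.H61.SS

open Finset Function

/-- No short kernel vector in the coordinates `(s, d)`. -/
def Ker (n h : ℕ) (s d : ℤ) : Prop :=
  ∀ u w : ℤ, |u| ≤ h → |w| ≤ h → (n : ℤ) ∣ u * s + w * d → u = 0 ∧ w = 0

lemma box_bound {n h : ℕ} (hn : 0 < n) (s d : ℤ) (hK : Ker n h s d) :
    (h + 1) * (h + 1) ≤ n := by
  have : NeZero n := ⟨hn.ne'⟩
  have hinj : Function.Injective (fun p : Fin (h + 1) × Fin (h + 1) =>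
      (((p.1 : ℕ) * s + (p.2 : ℕ) * d : ℤ) : ZMod n)) := by
    rintro ⟨x, y⟩ ⟨x', y'⟩ hxy
    simp only at hxy
    rw [ZMod.intCast_eq_intCast_iff_dvd_sub] at hxy
    have h1 := x.2
    have h2 := y.2
    have h3 := x'.2
    have h4 := y'.2
    have h5 := hK ((x' : ℕ) - (x : ℕ)) ((y' : ℕ) - (y : ℕ)) (by rw [abs_le]; omega)
      (by rw [abs_le]; omega) (by
        have e : ((x' : ℕ) - (x : ℕ) : ℤ) * s + ((y' : ℕ) - (y : ℕ) : ℤ) * d
          = ((x' : ℕ) * s + (y' : ℕ) * d : ℤ) - ((x : ℕ) * s + (y : ℕ) * d : ℤ) := by ring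
        rw [e]
        exact hxy)
    rw [Prod.mk.injEq, Fin.ext_iff, Fin.ext_iff]
    omega
  have := Fintype.card_le_of_injective _ hinj
  simpa [ZMod.card] using this

/-- If the box `[0,A] × [0,B]` is too large there is a kernel vector in it. -/
lemma box_kernel {n A B : ℕ} (hn : 0 < n) (s d : ℤ) (hlt : n < (A + 1) * (B + 1)) :
    ∃ u w : ℤ, |u| ≤ A ∧ |w| ≤ B ∧ (n : ℤ) ∣ u * s + w * d ∧ ¬ (u = 0 ∧ w = 0) := by
  have : NeZero n := ⟨hn.ne'⟩
  by_contra hcon
  push Not at hcon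
  have hinj : Function.Injective (fun p : Fin (A + 1) × Fin (B + 1) =>
      (((p.1 : ℕ) * s + (p.2 : ℕ) * d : ℤ) : ZMod n)) := by
    rintro ⟨x, y⟩ ⟨x', y'⟩ hxy
    simp only at hxy
    rw [ZMod.intCast_eq_intCast_iff_dvd_sub] at hxy
    have h1 := x.2
    have h2 := y.2
    have h3 := x'.2
    have h4 := y'.2
    have h5 := hcon ((x' : ℕ) - (x : ℕ)) ((y' : ℕ) - (y : ℕ)) (by rw [abs_le]; omega)
      (by rw [abs_le]; omega) (by
        have e : ((x' : ℕ) - (x : ℕ) : ℤ) * s + ((y' : ℕ) - (y : ℕ) : ℤ) * d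
          = ((x' : ℕ) * s + (y' : ℕ) * d : ℤ) - ((x : ℕ) * s + (y : ℕ) * d : ℤ) := by ring
        rw [e]
        exact hxy)
    rw [Prod.mk.injEq, Fin.ext_iff, Fin.ext_iff]
    omega
  have := Fintype.card_le_of_injective _ hinj
  simp [ZMod.card] at this
  omega

/-- The parity obstruction for odd `h` and even `n`. -/
lemma parity_bound {n h : ℕ} (hn : 0 < n) (s d : ℤ) (hK : Ker n h s d) (hsd : (2 : ℤ) ∣ s - d)
    (hh : Odd h) (he : Even n) : h ^ 2 + 3 * h < n := by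
  obtain ⟨k', hk'⟩ := hh
  obtain ⟨N, hN⟩ := he
  have hN0 : 0 < N := by omega
  have hNz : (n : ℤ) = 2 * N := by omega
  rcases Int.even_or_odd' s with ⟨s', hs | hs⟩
  · -- both even
    obtain ⟨d', hd⟩ : ∃ d', d = 2 * d' := ⟨(d / 2), by omega⟩
    have hK' : Ker N h s' d' := by
      intro u w hu hw hdvd
      refine hK u w hu hw ?_
      rw [hNz, hs, hd]
      have e : u * (2 * s') + w * (2 * d') = 2 * (u * s' + w * d') := by ring
      rw [e]
      exact mul_dvd_mul_left 2 hdvd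
    have := box_bound hN0 s' d' hK'
    nlinarith
  · -- both odd
    obtain ⟨d', hd⟩ : ∃ d', d = 2 * d' + 1 := ⟨(d / 2), by omega⟩
    by_contra hcon
    push Not at hcon
    have hpar : ∀ u w : ℤ, (n : ℤ) ∣ u * s + w * d → (2 : ℤ) ∣ u + w := by
      intro u w hdvd
      have h1 : (2 : ℤ) ∣ u * s + w * d := dvd_trans ⟨N, hNz⟩ hdvd
      have h2 : u + w = (u * s + w * d) - 2 * (u * s' + w * d') := by
        rw [hs, hd]
        ring
      rw [h2]
      exact dvd_sub h1 ⟨_, rfl⟩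
    have hkz : (h : ℤ) = 2 * k' + 1 := by omega
    -- kernel vector `(x, h + 1)`
    obtain ⟨x, hx1, hx2⟩ : ∃ x : ℤ, |x| ≤ h ∧ (n : ℤ) ∣ x * s + (h + 1) * d := by
      obtain ⟨u, w, hu, hw, hdvd, hne⟩ := box_kernel (A := h) (B := h + 1) hn s d (by nlinarith)
      push_cast at hw
      have hw2 : ¬ |w| ≤ h := fun h1 => hne (hK u w hu h1 hdvd)
      rcases abs_cases w with ⟨e1, e2⟩ | ⟨e1, e2⟩
      · refine ⟨u, hu, ?_⟩
        have : w = h + 1 := by omega
        rw [← this]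
        exact hdvd
      · refine ⟨-u, by rwa [abs_neg], ?_⟩
        have : w = -(h + 1) := by omega
        have e : -u * s + (h + 1) * d = -(u * s + w * d) := by
          rw [this]
          ring
        rw [e]
        exact hdvd.neg_right
    obtain ⟨y, hy1, hy2⟩ : ∃ y : ℤ, |y| ≤ h ∧ (n : ℤ) ∣ (h + 1) * s + y * d := by
      obtain ⟨u, w, hu, hw, hdvd, hne⟩ := box_kernel (A := h + 1) (B := h) hn s d (by nlinarith)
      push_cast at hu
      have hu2 : ¬ |u| ≤ h := fun h1 => hne (hK u w h1 hw hdvd)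
      rcases abs_cases u with ⟨e1, e2⟩ | ⟨e1, e2⟩
      · refine ⟨w, hw, ?_⟩
        have : u = h + 1 := by omega
        rw [← this]
        exact hdvd
      · refine ⟨-w, by rwa [abs_neg], ?_⟩
        have : u = -(h + 1) := by omega
        have e : (h + 1) * s + -w * d = -(u * s + w * d) := by
          rw [this]
          ring
        rw [e]
        exact hdvd.neg_right
    have px := hpar _ _ hx2
    have py := hpar _ _ hy2
    obtain ⟨x', rfl⟩ : ∃ x', x = 2 * x' := ⟨x / 2, by omega⟩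
    obtain ⟨y', rfl⟩ : ∃ y', y = 2 * y' := ⟨y / 2, by omega⟩
    rw [abs_le] at hx1 hy1
    -- halves
    have hX : ¬ (n : ℤ) ∣ x' * s + (k' + 1) * d := by
      intro h1
      have := hK x' (k' + 1) (by rw [abs_le]; omega) (by rw [abs_le]; omega) h1
      omega
    have hY : ¬ (n : ℤ) ∣ (k' + 1) * s + y' * d := by
      intro h1
      have := hK (k' + 1) y' (by rw [abs_le]; omega) (by rw [abs_le]; omega) h1
      omega
    obtain ⟨p, hp⟩ := hx2
    obtain ⟨q, hq⟩ := hy2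
    have hp' : x' * s + (k' + 1) * d = N * p := by
      rw [hNz, hkz] at hp
      linarith
    have hq' : (k' + 1) * s + y' * d = N * q := by
      rw [hNz, hkz] at hq
      linarith
    have hpo : p % 2 = 1 := by
      by_contra hc
      apply hX
      obtain ⟨p', rfl⟩ : ∃ p', p = 2 * p' := ⟨p / 2, by omega⟩
      exact ⟨p', by rw [hp', hNz]; ring⟩
    have hqo : q % 2 = 1 := by
      by_contra hc
      apply hY
      obtain ⟨q', rfl⟩ : ∃ q', q = 2 * q' := ⟨q / 2, by omega⟩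
      exact ⟨q', by rw [hq', hNz]; ring⟩
    obtain ⟨r, hr⟩ : ∃ r, p - q = 2 * r := ⟨(p - q) / 2, by omega⟩
    have h9 := hK (x' - (k' + 1)) (k' + 1 - y') (by rw [abs_le]; omega) (by rw [abs_le]; omega)
      ⟨r, by
        have e : (x' - (k' + 1)) * s + (k' + 1 - y') * d
            = (x' * s + (k' + 1) * d) - ((k' + 1) * s + y' * d) := by ring
        rw [e, hp', hq', hNz]
        have : (N : ℤ) * p - N * q = N * (p - q) := by ring
        rw [this, hr]
        ring⟩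
    omega

lemma val_two {n : ℕ} (a : Fin 2 → ZMod n) (A B : ℤ) (hA : a 0 = (A : ZMod n))
    (hB : a 1 = (B : ZMod n)) (l : Fin 2 → ℤ) :
    val a l = ((l 0 * A + l 1 * B : ℤ) : ZMod n) := by
  unfold val
  rw [Fin.sum_univ_two, hA, hB, zsmul_eq_mul, zsmul_eq_mul]
  push_cast
  ring

lemma ker_two {n h : ℕ} (hn : 0 < n) (a : Fin 2 → ZMod n)
    (hinj : Set.InjOn (val a) (sh 2 h)) : ∃ s d : ℤ, Ker n h s d ∧ (2 : ℤ) ∣ s - d := by
  have : NeZero n := ⟨hn.ne'⟩
  have hA : a 0 = (((a 0).val : ℤ) : ZMod n) := by simp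
  have hB : a 1 = (((a 1).val : ℤ) : ZMod n) := by simp
  generalize ((a 0).val : ℤ) = A at hA
  generalize ((a 1).val : ℤ) = B at hB
  refine ⟨A + B, A - B, ?_, ⟨B, by ring⟩⟩
  intro u w hu hw hdvd
  obtain ⟨t, ht⟩ : ∃ t : ℕ, (t : ℤ) = max |u| |w| := ⟨(max |u| |w|).toNat, by
    rw [Int.toNat_of_nonneg]
    exact le_trans (abs_nonneg u) (le_max_left _ _)⟩
  have hv := ker_of_inj le_rfl a hinj ![u + w, u - w] t (by omega) (by
      rw [Fin.sum_univ_two, ht]
      simp only [Matrix.cons_val_zero, Matrix.cons_val_one]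
      rcases abs_cases u with ⟨e1, e2⟩ | ⟨e1, e2⟩ <;>
      rcases abs_cases w with ⟨e3, e4⟩ | ⟨e3, e4⟩ <;>
      rcases abs_cases (u + w) with ⟨e5, e6⟩ | ⟨e5, e6⟩ <;>
      rcases abs_cases (u - w) with ⟨e7, e8⟩ | ⟨e7, e8⟩ <;> rw [e1, e3, e5, e7] <;> omega) (by
      rw [val_two a A B hA hB, ZMod.intCast_zmod_eq_zero_iff_dvd]
      simp only [Matrix.cons_val_zero, Matrix.cons_val_one]
      have e : (u + w) * A + (u - w) * B = u * (A + B) + w * (A - B) := by ring
      rw [e]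
      exact hdvd)
  have h1 := congrFun hv 0
  have h2 := congrFun hv 1
  simp only [Matrix.cons_val_zero, Matrix.cons_val_one, Pi.zero_apply] at h1 h2
  omega

lemma inj_of_ker {n h : ℕ} (A B : ℤ) (hK : Ker n h (A + B) (A - B)) :
    Set.InjOn (val ![(A : ZMod n), (B : ZMod n)]) (sh 2 h) := by
  intro x hx y hy hxy
  rw [Finset.mem_coe, mem_sh, Fin.sum_univ_two] at hx hy
  rw [val_two _ A B rfl rfl, val_two _ A B rfl rfl, ZMod.intCast_eq_intCast_iff_dvd_sub] at hxy
  have hp : (2 : ℤ) ∣ (y 0 - x 0) + (y 1 - x 1) := by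
    rcases abs_cases (x 0) with ⟨e1, e2⟩ | ⟨e1, e2⟩ <;>
    rcases abs_cases (y 0) with ⟨e3, e4⟩ | ⟨e3, e4⟩ <;>
    rcases abs_cases (x 1) with ⟨e5, e6⟩ | ⟨e5, e6⟩ <;>
    rcases abs_cases (y 1) with ⟨e7, e8⟩ | ⟨e7, e8⟩ <;> omega
  obtain ⟨u, hu⟩ := hp
  have hb : |(y 0 - x 0)| + |(y 1 - x 1)| ≤ 2 * h := by
    have h1 := abs_sub (y 0) (x 0)
    have h2 := abs_sub (y 1) (x 1)
    omega
  have h3 := hK u ((y 0 - x 0) - u) (by
      rcases abs_cases (y 0 - x 0) with ⟨e1, e2⟩ | ⟨e1, e2⟩ <;>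
      rcases abs_cases (y 1 - x 1) with ⟨e3, e4⟩ | ⟨e3, e4⟩ <;> rw [abs_le] <;> omega) (by
      rcases abs_cases (y 0 - x 0) with ⟨e1, e2⟩ | ⟨e1, e2⟩ <;>
      rcases abs_cases (y 1 - x 1) with ⟨e3, e4⟩ | ⟨e3, e4⟩ <;> rw [abs_le] <;> omega) (by
      have e : u * (A + B) + (y 0 - x 0 - u) * (A - B)
        = (y 0 * A + y 1 * B) - (x 0 * A + x 1 * B)
          - B * ((y 0 - x 0) + (y 1 - x 1) - 2 * u) := by ring
      rw [e, hu, sub_self, mul_zero, sub_zero]
      exact hxy)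
  funext i
  fin_cases i
  · show x 0 = y 0
    omega
  · show x 1 = y 1
    omega

lemma injective_of_ker {n h : ℕ} (hh : 1 ≤ h) (A B : ℤ) (hK : Ker n h (A + B) (A - B)) :
    Function.Injective ![(A : ZMod n), (B : ZMod n)] := by
  have hne : (A : ZMod n) ≠ (B : ZMod n) := by
    intro he
    rw [eq_comm, ZMod.intCast_eq_intCast_iff_dvd_sub] at he
    have := hK 0 1 (by simp) (by simpa using hh) (by
      rw [zero_mul, zero_add, one_mul]
      exact he)
    omega
  intro i j hij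
  fin_cases i <;> fin_cases j
  · rfl
  · exact absurd hij hne
  · exact absurd hij.symm hne
  · rfl

lemma c_two {h : ℕ} (hh : 2 ≤ h) : c h 2 = 4 * h := by
  unfold c
  rw [min_eq_left hh]
  obtain ⟨k, rfl⟩ : ∃ k, h = k + 1 := ⟨h - 1, by omega⟩
  have : Finset.Icc 1 2 = {1, 2} := by decide
  rw [this, Finset.sum_insert (by decide), Finset.sum_singleton]
  simp
  ring

/-- Small multiples of a large modulus. -/
lemma ker_std {n h : ℕ} (B : ℤ) (hB : (h : ℤ) < B) (hbig : (h : ℤ) + B * h < n) (u w : ℤ)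
    (hu : |u| ≤ h) (hw : |w| ≤ h) (hdvd : (n : ℤ) ∣ u + w * B) : u = 0 ∧ w = 0 := by
  have h0 : u + w * B = 0 := by
    refine Int.eq_zero_of_abs_lt_dvd hdvd ?_
    have h1 : |u + w * B| ≤ |u| + |w| * B := by
      have := abs_add_le u (w * B)
      rwa [abs_mul, abs_of_pos (by omega : 0 < B)] at this
    nlinarith
  rw [abs_le] at hu hw
  have hw0 : w = 0 := by
    by_contra hc
    rcases lt_or_gt_of_ne hc with h1 | h1
    · nlinarith
    · nlinarith
  subst hw0
  simpa using h0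

/-- Construction when the modulus is large. -/
lemma attained {n h : ℕ} (h1 : (h + 1) ^ 2 ≤ n)
    (h2 : ¬ (Odd h ∧ Even n ∧ n ≤ h ^ 2 + 3 * h)) :
    ∃ A B : ℤ, Ker n h (A + B) (A - B) := by
  rcases Nat.even_or_odd' n with ⟨N, hN | hN⟩
  · rcases Nat.even_or_odd' h with ⟨k, hk | hk⟩
    · refine ⟨k + 1, -k, ?_⟩
      intro u w hu hw hdvd
      refine ker_std (n := n) (h + 1 : ℤ) (by omega) ?_ u w hu hw ?_
      · have : ((h : ℤ) + 1) ^ 2 ≤ n := by exact_mod_cast h1
        nlinarith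
      · have e : u * ((k : ℤ) + 1 + -k) + w * ((k : ℤ) + 1 - -k) = u + w * (h + 1) := by
          rw [hk]
          push_cast
          ring
        rw [e] at hdvd
        exact hdvd
    · have h3 : h ^ 2 + 3 * h < n := by
        by_contra hcon
        exact h2 ⟨⟨k, hk⟩, ⟨N, by omega⟩, by omega⟩
      refine ⟨k + 2, -(k + 1), ?_⟩
      intro u w hu hw hdvd
      refine ker_std (n := n) (h + 2 : ℤ) (by omega) ?_ u w hu hw ?_
      · have : ((h : ℤ)) ^ 2 + 3 * h < n := by exact_mod_cast h3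
        nlinarith
      · have e : u * ((k : ℤ) + 2 + -(k + 1)) + w * ((k : ℤ) + 2 - -(k + 1)) = u + w * (h + 2) := by
          rw [hk]
          push_cast
          ring
        rw [e] at hdvd
        exact hdvd
  · refine ⟨h + 2, -h, ?_⟩
    intro u w hu hw hdvd
    refine ker_std (n := n) (h + 1 : ℤ) (by omega) ?_ u w hu hw ?_
    · have : ((h : ℤ) + 1) ^ 2 ≤ n := by exact_mod_cast h1
      nlinarith
    · have e : u * ((h : ℤ) + 2 + -h) + w * ((h : ℤ) + 2 - -h) = 2 * (u + w * (h + 1)) := by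
        ring
      rw [e] at hdvd
      have hco : IsCoprime (n : ℤ) 2 := by
        rw [hN]
        push_cast
        exact ⟨1, -N, by ring⟩
      exact hco.dvd_of_dvd_mul_left hdvd

/-- The case `m = 2`, `n ≥ 4h`. -/
theorem two {n h : ℕ} (hh : 2 ≤ h) (hn : 4 * h ≤ n) :
    nu n 2 h < min n (c h 2) ↔ n < (h + 1) ^ 2 ∨ (Odd h ∧ Even n ∧ n ≤ h ^ 2 + 3 * h) := by
  classical
  have hn0 : 0 < n := by omega
  rw [c_two hh, min_eq_right hn, nu_lt_iff hn0 (by omega)]
  constructor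
  · intro hall
    by_contra hcon
    push Not at hcon
    obtain ⟨A, B, hK⟩ := attained hcon.1 (fun h3 => absurd (hcon.2 h3.1 h3.2.1) (not_lt.mpr h3.2.2))
    have h1 := hall _ (injective_of_ker (by omega) A B hK)
    rw [Finset.card_image_of_injOn (inj_of_ker A B hK), card_sh_eq_c 2 h (by omega), c_two hh] at h1
    omega
  · intro hor a _
    by_contra hcon
    push Not at hcon
    have h3 : ((sh 2 h).image (val a)).card = (sh 2 h).card := by
      refine le_antisymm Finset.card_image_le ?_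
      rw [card_sh_eq_c 2 h (by omega), c_two hh]
      exact hcon
    obtain ⟨s, d, hK, hsd⟩ := ker_two hn0 a (Finset.card_image_iff.mp h3)
    rcases hor with h4 | ⟨h4, h5, h6⟩
    · have := box_bound hn0 s d hK
      nlinarith
    · have := parity_bound hn0 s d hK hsd h4 h5
      omega

end Pool.Agent.H61.SS
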