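import Pool.Agent.H61.SS.Two
import Pool.Agent.H61.SS.Cover

/-! Pairs `{a, b}` and moduli `3h < n < 4h`. -/

namespace Pool.Agent.H61.SS

open Finset Function

lemma step1 {n h : ℕ} (hn : 2 * h < n) (j d s : ℤ)
    (hs : (n : ℤ) ∣ h * s - (2 * j - h) * d)
    (hc : ∀ z : ℤ, ∃ i e : ℤ, 0 ≤ i ∧ i ≤ h ∧ (e = 1 ∨ e = -1) ∧
      ((n : ℤ) ∣ e * (j - i) * d - z ∨ (n : ℤ) ∣ e * (j * d - i * s) - z)) :
    IsCoprime d (n : ℤ) := by
  by_contra hcop
  rw [Int.isCoprime_iff_gcd_eq_one] at hcop
  obtain ⟨g, hg⟩ : ∃ g : ℕ, g = Int.gcd d n := ⟨_, rfl⟩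
  rw [← hg] at hcop
  obtain ⟨d', hd'⟩ : (g : ℤ) ∣ d := by rw [hg]; exact Int.gcd_dvd_left _ _
  obtain ⟨n', hn'⟩ : g ∣ n := by
    have : (g : ℤ) ∣ (n : ℤ) := by rw [hg]; exact Int.gcd_dvd_right _ _
    exact_mod_cast this
  have hg0 : g ≠ 0 := by
    rintro rfl
    omega
  have hg2 : 2 ≤ g := by omega
  have hgz : (2 : ℤ) ≤ g := by exact_mod_cast hg2
  have hgn : (g : ℤ) ∣ (n : ℤ) := ⟨n', by rw [hn']; push_cast; ring⟩
  have hgd : (g : ℤ) ∣ d := ⟨d', hd'⟩
  have hg1 : ¬ (g : ℤ) ∣ 1 := by
    intro h1
    have := Int.le_of_dvd one_pos h1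
    omega
  -- reduction modulo `g`
  have hmod : ∀ z i e : ℤ, (n : ℤ) ∣ e * (j * d - i * s) - z → (g : ℤ) ∣ z + e * i * s := by
    intro z i e hz
    have h1 := hgn.trans hz
    have h2 : z + e * i * s = e * j * d - (e * (j * d - i * s) - z) := by ring
    rw [h2]
    exact dvd_sub (hgd.mul_left _) h1
  have hmod1 : ∀ z i e : ℤ, (n : ℤ) ∣ e * (j - i) * d - z → (g : ℤ) ∣ z := by
    intro z i e hz
    have h1 := hgn.trans hz
    have h2 : z = e * (j - i) * d - (e * (j - i) * d - z) := by ring
    rw [h2]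
    exact dvd_sub (hgd.mul_left _) h1
  have hsg : IsCoprime s (g : ℤ) := by
    obtain ⟨i, e, _, _, _, h1 | h1⟩ := hc 1
    · exact absurd (hmod1 _ _ _ h1) hg1
    · obtain ⟨t, ht⟩ := hmod _ _ _ h1
      exact ⟨-(e * i), t, by linarith⟩
  have hgs : ¬ (g : ℤ) ∣ s := by
    intro h1
    apply hg1
    obtain ⟨x, y, hxy⟩ := hsg
    rw [← hxy]
    exact dvd_add (h1.mul_left _) (Dvd.intro_left _ rfl)
  obtain ⟨h', hh'⟩ : g ∣ h := by
    have h1 : (g : ℤ) ∣ h * s := by
      have h2 : (h : ℤ) * s = (h * s - (2 * j - h) * d) + (2 * j - h) * d := by ring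
      rw [h2]
      exact dvd_add (hgn.trans hs) (hgd.mul_left _)
    have h2 : (g : ℤ) ∣ h := hsg.symm.dvd_of_dvd_mul_right h1
    exact_mod_cast h2
  choose I E hI0 hIh hE hdis using fun r : Fin n' => hc (s + g * (r : ℕ))
  have hopt : ∀ r, (n : ℤ) ∣ E r * (j * d - I r * s) - (s + g * (r : ℕ)) := by
    intro r
    rcases hdis r with h1 | h1
    · exfalso
      have h2 := hmod1 _ _ _ h1
      apply hgs
      have h3 : s = (s + g * (r : ℕ)) - g * (r : ℕ) := by ring
      rw [h3]
      exact dvd_sub h2 (Dvd.intro _ rfl)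
    · exact h1
  have hres : ∀ r, (g : ℤ) ∣ 1 + E r * I r := by
    intro r
    have h1 := hmod _ _ _ (hopt r)
    have h2 : (g : ℤ) ∣ (1 + E r * I r) * s := by
      have h3 : (1 + E r * I r) * s = (s + g * (r : ℕ) + E r * I r * s) - g * (r : ℕ) := by ring
      rw [h3]
      exact dvd_sub h1 (Dvd.intro _ rfl)
    exact hsg.symm.dvd_of_dvd_mul_right h2
  have hlt : ∀ r, I r / g < h' := by
    intro r
    have hne : I r ≠ h' * g := by
      intro h1
      have h2 := hres r
      rw [h1] at h2
      apply hg1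
      have h3 : (1 : ℤ) = (1 + E r * (h' * g)) - E r * h' * g := by ring
      rw [h3]
      exact dvd_sub h2 (Dvd.intro_left _ rfl)
    refine Int.ediv_lt_of_lt_mul (by omega) ?_
    refine lt_of_le_of_ne ?_ hne
    have h1 := hIh r
    rw [hh'] at h1
    push_cast at h1
    linarith
  have hnn : ∀ r, 0 ≤ I r / g := fun r => Int.ediv_nonneg (hI0 r) (by omega)
  let f : Fin n' → Bool × Fin h' := fun r =>
    (decide (E r = 1), ⟨(I r / g).toNat, by
      have h1 := hlt r
      have h2 := hnn r
      omega⟩)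
  have hinj : Function.Injective f := by
    intro r r' hrr
    simp only [f, Prod.mk.injEq, Fin.mk.injEq, decide_eq_decide] at hrr
    obtain ⟨h1, h2⟩ := hrr
    have hEE : E r = E r' := by
      rcases hE r with e1 | e1 <;> rcases hE r' with e2 | e2
      · rw [e1, e2]
      · rw [e1, e2] at h1
        simp at h1
      · rw [e1, e2] at h1
        simp at h1
      · rw [e1, e2]
    have hq : I r / g = I r' / g := by
      have h3 := hnn r
      have h4 := hnn r'
      omega
    have hdiff : (g : ℤ) ∣ I r - I r' := by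
      have h3 := dvd_sub (hres r) (hres r')
      rw [← hEE] at h3
      rcases hE r with e1 | e1
      · rw [e1] at h3
        have h4 : (1 + 1 * I r - (1 + 1 * I r') : ℤ) = I r - I r' := by ring
        rwa [h4] at h3
      · rw [e1] at h3
        have h4 : (1 + -1 * I r - (1 + -1 * I r') : ℤ) = -(I r - I r') := by ring
        rw [h4] at h3
        exact (dvd_neg).mp h3
    have hII : I r = I r' := by
      have h3 : I r % g = I r' % g := 
        Int.emod_eq_emod_iff_emod_sub_eq_zero.mpr (Int.emod_eq_zero_of_dvd hdiff)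
      rw [← Int.mul_ediv_add_emod (I r) g, ← Int.mul_ediv_add_emod (I r') g, hq, h3]
    have h5 := dvd_sub (hopt r') (hopt r)
    rw [← hEE, ← hII] at h5
    have h6 : E r * (j * d - I r * s) - (s + (g : ℤ) * (r' : ℕ))
        - (E r * (j * d - I r * s) - (s + (g : ℤ) * (r : ℕ))) = g * ((r : ℕ) - (r' : ℕ)) := by ring
    rw [h6, hn'] at h5
    push_cast at h5
    have h7 : (n' : ℤ) ∣ ((r : ℕ) - (r' : ℕ) : ℤ) :=
      (mul_dvd_mul_iff_left (by omega : (g : ℤ) ≠ 0)).mp h5
    have h8 : ((r : ℕ) - (r' : ℕ) : ℤ) = 0 := by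
      refine Int.eq_zero_of_abs_lt_dvd h7 ?_
      have h9 := r.2
      have h10 := r'.2
      rw [abs_lt]
      omega
    rw [Fin.ext_iff]
    omega
  have hcard := Fintype.card_le_of_injective f hinj
  rw [Fintype.card_fin, Fintype.card_prod, Fintype.card_bool, Fintype.card_fin] at hcard
  have : g * n' ≤ g * (2 * h') := Nat.mul_le_mul_left g hcard
  have h9 : g * (2 * h') = 2 * (g * h') := by ring
  rw [← hn', h9, ← hh'] at this
  omega

lemma passes {n h : ℕ} (j S k : ℤ) (hj1 : (h : ℤ) - j ≤ j) (hh : 2 * h < n)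
    (hS0 : S ≠ 0)
    (hk : h * S = (2 * j - h) + k * n)
    (hc : ∀ z : ℤ, ∃ i e : ℤ, 0 ≤ i ∧ i ≤ h ∧ (e = 1 ∨ e = -1) ∧
      ((n : ℤ) ∣ e * (j - i) - z ∨ (n : ℤ) ∣ e * (j - i * S) - z))
    (q : ℕ) (hq1 : (q : ℤ) ≤ |S|) (hq2 : (q : ℤ) ≤ n - 2 * j - 1) : (q : ℤ) ≤ 2 * |k| := by
  have hnz : (2 : ℤ) * h < n := by exact_mod_cast hh
  have hj0 : 0 ≤ j := by omega
  set lo : ℤ := if 0 < S then -k else 0 with hlo
  have main : ∀ x : Fin q, ∃ (e : Bool) (l i : ℤ), lo ≤ l ∧ l < lo + |k| ∧
      j - i * S = (if e then j + 1 + (x : ℕ) else n - (j + 1 + (x : ℕ))) + l * n := by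
    intro x
    have hx := x.2
    have hxz : ((x : ℕ) : ℤ) < q := by exact_mod_cast hx
    have hx0 : (0 : ℤ) ≤ ((x : ℕ) : ℤ) := by positivity
    obtain ⟨i, e, hi0, hih, he, h1 | h1⟩ := hc (j + 1 + (x : ℕ))
    · exfalso
      obtain ⟨t, ht⟩ := h1
      have hb1 : e * (j - i) ≤ j := by
        rcases he with rfl | rfl <;> omega
      have hb2 : -j ≤ e * (j - i) := by
        rcases he with rfl | rfl <;> omega
      have ht1 : (n : ℤ) * t < 0 := by rw [← ht]; omega
      have ht2 : -(n : ℤ) < n * t := by rw [← ht]; omega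
      have ht3 : t < 0 := by
        by_contra hcon
        push Not at hcon
        have : 0 ≤ (n : ℤ) * t := by positivity
        omega
      nlinarith
    · obtain ⟨t, ht⟩ := h1
      -- common bounding argument
      have key : ∀ y l : ℤ, j < y → y < n - j → j - i * S = y + l * n →
          lo ≤ l ∧ l < lo + |k| := by
        intro y l hy1 hy2 hyl
        rcases lt_or_gt_of_ne hS0 with hS | hS
        · rw [hlo, if_neg (by omega)]
          have hk0 : k ≤ 0 := by
            by_contra hcon
            push Not at hcon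
            nlinarith
          rw [abs_of_nonpos hk0]
          have h2 : 0 ≤ -(i * S) := by nlinarith
          have h3 : -(i * S) ≤ -(h * S) := by nlinarith
          constructor
          · by_contra hcon
            push Not at hcon
            have : l ≤ -1 := by omega
            nlinarith
          · by_contra hcon
            push Not at hcon
            have : -k ≤ l := by omega
            nlinarith
        · rw [hlo, if_pos (by omega)]
          have hk0 : 0 ≤ k := by
            by_contra hcon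
            push Not at hcon
            have : k ≤ -1 := by omega
            nlinarith
          rw [abs_of_nonneg hk0]
          have h2 : 0 ≤ i * S := by nlinarith
          have h3 : i * S ≤ h * S := by nlinarith
          constructor
          · by_contra hcon
            push Not at hcon
            have : l ≤ -k - 1 := by omega
            nlinarith
          · by_contra hcon
            push Not at hcon
            have : 0 ≤ l := by omega
            nlinarith
      rcases he with rfl | rfl
      · refine ⟨true, t, i, ?_⟩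
        simp only [if_true]
        have h2 : j - i * S = (j + 1 + (x : ℕ)) + t * n := by linarith
        obtain ⟨h3, h4⟩ := key _ _ (by omega) (by omega) h2
        exact ⟨h3, h4, h2⟩
      · refine ⟨false, -t - 1, i, ?_⟩
        simp only [Bool.false_eq_true, if_false]
        have h2 : j - i * S = (n - (j + 1 + (x : ℕ))) + (-t - 1) * n := by linarith
        obtain ⟨h3, h4⟩ := key _ _ (by omega) (by omega) h2
        exact ⟨h3, h4, h2⟩
  choose e l i hl1 hl2 heq using main
  let f : Fin q → Bool × Fin k.natAbs := fun x =>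
    (e x, ⟨(l x - lo).toNat, by
      have h1 := hl1 x
      have h2 := hl2 x
      rw [Int.abs_eq_natAbs] at h2
      omega⟩)
  have hinj : Function.Injective f := by
    intro x x' hxx
    simp only [f, Prod.mk.injEq, Fin.mk.injEq] at hxx
    obtain ⟨h1, h2⟩ := hxx
    have h3 : l x = l x' := by
      have := hl1 x
      have := hl1 x'
      omega
    have h4 := heq x
    have h5 := heq x'
    rw [← h1, ← h3] at h5
    have h6 : S ∣ (((x : ℕ) : ℤ) - (x' : ℕ)) := by
      rcases he : e x with _ | _
      · rw [he] at h4 h5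
        simp only [Bool.false_eq_true, if_false] at h4 h5
        exact ⟨i x - i x', by linarith⟩
      · rw [he] at h4 h5
        simp only [if_true] at h4 h5
        exact ⟨i x' - i x, by linarith⟩
    have h7 : (((x : ℕ) : ℤ) - (x' : ℕ)) = 0 := by
      refine Int.eq_zero_of_abs_lt_dvd ((abs_dvd S _).mpr h6) ?_
      have h8 := x.2
      have h9 := x'.2
      refine lt_of_lt_of_le ?_ hq1
      rw [abs_lt]
      omega
    rw [Fin.ext_iff]
    omega
  have hcard := Fintype.card_le_of_injective f hinj
  rw [Fintype.card_fin, Fintype.card_prod, Fintype.card_bool, Fintype.card_fin] at hcard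
  rw [Int.abs_eq_natAbs]
  exact_mod_cast hcard

lemma step2 {n h : ℕ} (hh : 1 ≤ h) (hn : 3 * h < n) (j S : ℤ) (hj1 : (h : ℤ) - j ≤ j)
    (hj2 : j ≤ h) (hS : 2 * |S| ≤ n) (k : ℤ) (hk : h * S = (2 * j - h) + k * n)
    (hc : ∀ z : ℤ, ∃ i e : ℤ, 0 ≤ i ∧ i ≤ h ∧ (e = 1 ∨ e = -1) ∧
      ((n : ℤ) ∣ e * (j - i) - z ∨ (n : ℤ) ∣ e * (j - i * S) - z)) : False := by
  have hnz : (3 : ℤ) * h < n := by exact_mod_cast hn
  have hhz : (1 : ℤ) ≤ h := by exact_mod_cast hh
  obtain ⟨δ, hδ⟩ : ∃ δ : ℤ, δ = 2 * j - h := ⟨_, rfl⟩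
  have hδ0 : 0 ≤ δ := by omega
  have hδh : δ ≤ h := by omega
  rw [← hδ] at hk
  have hS0 : S ≠ 0 := by
    rintro rfl
    -- then `δ + k n = 0`, so `k = 0` and `δ = 0`; but the class of `j + 1` is not reached
    obtain ⟨i, e, hi0, hih, he, h1 | h1⟩ := hc (j + 1)
    · obtain ⟨t, ht⟩ := h1
      have hb1 : e * (j - i) ≤ j := by
        rcases he with rfl | rfl <;> omega
      have hb2 : -j ≤ e * (j - i) := by
        rcases he with rfl | rfl <;> omega
      have ht1 : (n : ℤ) * t < 0 := by rw [← ht]; omega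
      have ht2 : -(n : ℤ) < n * t := by rw [← ht]; omega
      have ht3 : t < 0 := by
        by_contra hcon
        push Not at hcon
        have : 0 ≤ (n : ℤ) * t := by positivity
        omega
      nlinarith
    · obtain ⟨t, ht⟩ := h1
      have hb1 : e * (j - i * 0) ≤ j := by
        rcases he with rfl | rfl <;> omega
      have hb2 : -j ≤ e * (j - i * 0) := by
        rcases he with rfl | rfl <;> omega
      have ht1 : (n : ℤ) * t < 0 := by rw [← ht]; omega
      have ht2 : -(n : ℤ) < n * t := by rw [← ht]; omega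
      have ht3 : t < 0 := by
        by_contra hcon
        push Not at hcon
        have : 0 ≤ (n : ℤ) * t := by positivity
        omega
      nlinarith
  have hp := passes j S k hj1 (by omega) hS0 (by rw [hk, hδ]) hc
  have hJ : 0 ≤ (n : ℤ) - 2 * j - 1 := by omega
  rcases le_total |S| ((n : ℤ) - 2 * j - 1) with hcase | hcase
  · -- `|S| ≤ 2 |k|`
    have h1 : |S| ≤ 2 * |k| := by
      have := hp S.natAbs (by rw [← Int.abs_eq_natAbs]) (by rw [← Int.abs_eq_natAbs]; exact hcase)
      rwa [← Int.abs_eq_natAbs] at this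
    rcases lt_or_gt_of_ne hS0 with hS' | hS'
    · have hk0 : k ≤ 0 := by
        by_contra hcon
        push Not at hcon
        nlinarith
      rw [abs_of_neg hS', abs_of_nonpos hk0] at h1
      have hk1 : k = 0 := by
        by_contra hcon
        have : k ≤ -1 := by omega
        nlinarith
      subst hk1
      omega
    · have hk0 : 0 ≤ k := by
        by_contra hcon
        push Not at hcon
        have : k ≤ -1 := by omega
        nlinarith
      rw [abs_of_pos hS', abs_of_nonneg hk0] at h1
      have hk1 : k = 0 := by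
        by_contra hcon
        have : 1 ≤ k := by omega
        nlinarith
      subst hk1
      omega
  · have h1 : (n : ℤ) - 2 * j - 1 ≤ 2 * |k| := by
      have := hp ((n : ℤ) - 2 * j - 1).toNat (by rw [Int.toNat_of_nonneg hJ]; exact hcase)
        (by rw [Int.toNat_of_nonneg hJ])
      rwa [Int.toNat_of_nonneg hJ] at this
    rcases lt_or_gt_of_ne hS0 with hS' | hS'
    · have hk0 : k ≤ 0 := by
        by_contra hcon
        push Not at hcon
        nlinarith
      rw [abs_of_nonpos hk0] at h1
      rw [abs_of_neg hS'] at hS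
      -- `2 (-k) n ≤ h n + 2 δ < (h + 1) n`
      have h2 : 2 * (-k) ≤ h := by
        by_contra hcon
        push Not at hcon
        have : (h : ℤ) + 1 ≤ 2 * (-k) := by omega
        nlinarith
      have h3 : (n : ℤ) = 3 * h + 1 := by omega
      have h4 : δ = h := by omega
      have h5 : 2 * (-k) = h := by omega
      have h6 : (h : ℤ) * (2 * S + n - 2) = 0 := by
        have : (h : ℤ) * (2 * S + n - 2) = 2 * (h * S) + h * n - 2 * h := by ring
        rw [this, hk, h4]
        have : (2 : ℤ) * (h + k * n) + h * n - 2 * h = (h - 2 * (-k)) * n := by ring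
        rw [this, h5]
        ring
      rcases mul_eq_zero.mp h6 with h7 | h7
      · omega
      · omega
    · have hk0 : 0 ≤ k := by
        by_contra hcon
        push Not at hcon
        have : k ≤ -1 := by omega
        nlinarith
      rw [abs_of_nonneg hk0] at h1
      rw [abs_of_pos hS'] at hS
      rcases eq_or_lt_of_le hδ0 with h2 | h2
      · have h3 : 2 * k ≤ h := by
          by_contra hcon
          push Not at hcon
          have : (h : ℤ) + 1 ≤ 2 * k := by omega
          nlinarith
        omega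
      · have h3 : 2 * k ≤ h - 1 := by
          by_contra hcon
          push Not at hcon
          have : (h : ℤ) ≤ 2 * k := by omega
          nlinarith
        omega

end Pool.Agent.H61.SS
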